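import Pool.Agent.Lib.MP_96bab1_co.U.Spec

/-!
# Sequential k-IPP codes: sets with different symbols
-/

set_option autoImplicit false

namespace Pool.Agent.Lib.MP_96bab1_co.U

open Filter Topology Pool.Agent.Lib.MP_96bab1_co

theorem pCnt : S_Cnt := by
  classical
  intro α _ q m V f 𝓣 h𝓣
  have h1 : 𝓣.card = ∑ S ∈ Finset.powersetCard m (Finset.univ : Finset (Fin q)),
      (𝓣.filter (fun T => T.image f = S)).card := by
    apply Finset.card_eq_sum_card_fiberwise
    intro T hT
    obtain ⟨-, h2, h3⟩ := h𝓣 T hT
    rw [Finset.mem_coe, Finset.mem_powersetCard]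
    exact ⟨Finset.subset_univ _, by rw [Finset.card_image_of_injOn h3, h2]⟩
  have h2 : ∀ S ∈ Finset.powersetCard m (Finset.univ : Finset (Fin q)),
      (𝓣.filter (fun T => T.image f = S)).card ≤
        ∏ a ∈ S, (V.filter (fun v => f v = a)).card := by
    intro S _
    have h3 : 𝓣.filter (fun T => T.image f = S) ⊆
        (S.pi (fun a => V.filter (fun v => f v = a))).image
          (fun s => S.attach.image (fun a => s a.1 a.2)) := by
      intro T hT
      obtain ⟨hT1, hT2⟩ := Finset.mem_filter.1 hT
      obtain ⟨hV, -, hinj⟩ := h𝓣 T hT1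
      have h4 : ∀ a ∈ S, ∃ v ∈ T, f v = a := by
        intro a ha
        rw [← hT2] at ha
        exact Finset.mem_image.1 ha
      choose s hs1 hs2 using h4
      rw [Finset.mem_image]
      refine ⟨s, ?_, ?_⟩
      · rw [Finset.mem_pi]
        intro a ha
        exact Finset.mem_filter.2 ⟨hV (hs1 a ha), hs2 a ha⟩
      · ext v
        rw [Finset.mem_image]
        constructor
        · rintro ⟨a, -, rfl⟩
          exact hs1 a.1 a.2
        · intro hv
          have hfv : f v ∈ S := by
            rw [← hT2]; exact Finset.mem_image_of_mem f hv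
          refine ⟨⟨f v, hfv⟩, Finset.mem_attach _ _, ?_⟩
          exact hinj (hs1 _ hfv) hv (hs2 _ hfv)
    calc (𝓣.filter (fun T => T.image f = S)).card ≤ _ := Finset.card_le_card h3
      _ ≤ (S.pi (fun a => V.filter (fun v => f v = a))).card := Finset.card_image_le
      _ = ∏ a ∈ S, (V.filter (fun v => f v = a)).card := Finset.card_pi _ _
  have h3 : 𝓣.card ≤ ∑ S ∈ Finset.powersetCard m (Finset.univ : Finset (Fin q)),
      ∏ a ∈ S, (V.filter (fun v => f v = a)).card := by
    rw [h1]
    exact Finset.sum_le_sum h2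
  exact_mod_cast h3

end Pool.Agent.Lib.MP_96bab1_co.U
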