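import Pool.Agent.Lib.MP_96bab1_co.U.Spec

/-!
# Sequential k-IPP codes, package U: existence of separating functions (union bound)
-/

set_option autoImplicit false

namespace Pool.Agent.Lib.MP_96bab1_co.U

open Finset Pool.Agent.Lib.MP_96bab1_co

/-- Existence of separating functions. -/
theorem pEx : S_Ex := by
  classical
  intro q k n m P hG hP1 hcount
  obtain ⟨Q, lam, hQ, hG⟩ := hG
  have hP0 : 0 ≤ 1 - P := sub_nonneg.mpr hP1
  have hQ0 : (0 : ℝ) < Q := by exact_mod_cast hQ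
  -- bad functions for `φ`
  let Bc : (Fin (k + 1) → Fin k → Option (Fin n)) → Finset (Fin n → Fin Q) := fun φ =>
    Finset.univ.filter (fun g : Fin n → Fin Q => ∃ a : Fin q, ∀ j, ∃ x ∈ listed (φ j), lam (g x) = a)
  let Bd : (Fin (k + 1) → Fin k → Option (Fin n)) → Finset (Fin m → Fin n → Fin Q) := fun φ =>
    if ∀ x, ∃ j, x ∉ listed (φ j) then Fintype.piFinset (fun _ => Bc φ) else ∅
  have hBc : ∀ φ : Fin (k + 1) → Fin k → Option (Fin n), (∀ x, ∃ j, x ∉ listed (φ j)) →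
      ((Bc φ).card : ℝ) ≤ (1 - P) * (Q : ℝ) ^ n := by
    intro φ hφ
    obtain ⟨𝓖, h1, h2⟩ := hG n φ hφ
    have hdisj : Disjoint (Bc φ) 𝓖 := by
      rw [Finset.disjoint_left]
      intro g hg hg'
      exact h1 g hg' (Finset.mem_filter.1 hg).2
    have hle : (Bc φ).card + 𝓖.card ≤ Q ^ n := by
      rw [← Finset.card_union_of_disjoint hdisj]
      simpa using Finset.card_le_univ (Bc φ ∪ 𝓖)
    have hle' : ((Bc φ).card : ℝ) + 𝓖.card ≤ (Q : ℝ) ^ n := by exact_mod_cast hle
    linarith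
  have hBd : ∀ φ, ((Bd φ).card : ℝ) ≤ ((1 - P) * (Q : ℝ) ^ n) ^ m := by
    intro φ
    by_cases hφ : ∀ x, ∃ j, x ∉ listed (φ j)
    · simp only [Bd, if_pos hφ, Fintype.card_piFinset, Finset.prod_const, Finset.card_univ,
        Fintype.card_fin, Nat.cast_pow]
      exact pow_le_pow_left₀ (Nat.cast_nonneg _) (hBc φ hφ) m
    · simp only [Bd, if_neg hφ, Finset.card_empty, Nat.cast_zero]
      exact pow_nonneg (mul_nonneg hP0 (pow_nonneg hQ0.le _)) _
  have hunion : ((Finset.univ : Finset (Fin (k + 1) → Fin k → Option (Fin n))).biUnion Bd).card <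
      (Q ^ n) ^ m := by
    have h1 : ((Finset.univ : Finset (Fin (k + 1) → Fin k → Option (Fin n))).biUnion Bd).card ≤
        ∑ φ, (Bd φ).card := Finset.card_biUnion_le
    have h2 : (∑ φ, ((Bd φ).card : ℝ)) ≤
        ((n : ℝ) + 1) ^ (k * (k + 1)) * ((1 - P) * (Q : ℝ) ^ n) ^ m := by
      refine (Finset.sum_le_sum (fun φ _ => hBd φ)).trans ?_
      rw [Finset.sum_const, nsmul_eq_mul]
      apply le_of_eq
      have h3 : ((Finset.univ : Finset (Fin (k + 1) → Fin k → Option (Fin n))).card : ℝ) =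
          ((n : ℝ) + 1) ^ (k * (k + 1)) := by
        rw [pow_mul]
        simp only [Finset.card_univ, Fintype.card_fun, Fintype.card_fin, Fintype.card_option]
        push_cast
        rfl
      rw [h3]
    have h3 : ((n : ℝ) + 1) ^ (k * (k + 1)) * ((1 - P) * (Q : ℝ) ^ n) ^ m < ((Q : ℝ) ^ n) ^ m := by
      rw [mul_pow, ← mul_assoc]
      exact mul_lt_of_lt_one_left (pow_pos (pow_pos hQ0 _) _) hcount
    have h4 : (((Finset.univ : Finset (Fin (k + 1) → Fin k → Option (Fin n))).biUnion Bd).card : ℝ)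
        ≤ ∑ φ, ((Bd φ).card : ℝ) := by exact_mod_cast h1
    have h5 := lt_of_le_of_lt (h4.trans h2) h3
    exact_mod_cast h5
  obtain ⟨F, hF⟩ : ∃ F : Fin m → Fin n → Fin Q,
      F ∉ (Finset.univ : Finset (Fin (k + 1) → Fin k → Option (Fin n))).biUnion Bd := by
    by_contra hcon
    push Not at hcon
    have h1 : (Finset.univ : Finset (Fin m → Fin n → Fin Q)) ⊆
        (Finset.univ : Finset (Fin (k + 1) → Fin k → Option (Fin n))).biUnion Bd :=
      fun F _ => hcon F
    have h2 := Finset.card_le_card h1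
    simp only [Finset.card_univ, Fintype.card_fun, Fintype.card_fin] at h2
    omega
  refine ⟨fun x i => lam (F i x), ?_⟩
  intro Y hYne hYc hYk hYx
  by_contra hcon
  push Not at hcon
  -- represent `Y` by `φ`
  obtain ⟨X₀, hX₀⟩ := hYne
  let s : Fin (k + 1) → Finset (Fin n) := fun j =>
    if h : (j : ℕ) < Y.card then (Y.equivFin.symm ⟨j, h⟩).1 else X₀
  have hsY : ∀ j, s j ∈ Y := by
    intro j
    by_cases h : (j : ℕ) < Y.card
    · simp only [s, h, dif_pos]
      exact (Y.equivFin.symm ⟨j, h⟩).2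
    · simp only [s, h, dif_neg, not_false_eq_true]
      exact hX₀
  have hYs : ∀ X ∈ Y, ∃ j, s j = X := by
    intro X hX
    refine ⟨⟨(Y.equivFin ⟨X, hX⟩ : ℕ), by have := (Y.equivFin ⟨X, hX⟩).isLt; omega⟩, ?_⟩
    simp [s]
  have hch : ∀ j, ∃ u : Fin k → Option (Fin n), listed u = s j :=
    fun j => exists_listed (s j) (hYk _ (hsY j))
  choose φ hφ using hch
  apply hF
  rw [Finset.mem_biUnion]
  refine ⟨φ, Finset.mem_univ _, ?_⟩
  have hE : ∀ x, ∃ j, x ∉ listed (φ j) := by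
    intro x
    obtain ⟨X, hX, hxX⟩ := hYx x
    obtain ⟨j, hj⟩ := hYs X hX
    exact ⟨j, by rw [hφ, hj]; exact hxX⟩
  simp only [Bd, Bc, if_pos hE, Fintype.mem_piFinset, Finset.mem_filter, Finset.mem_univ, true_and]
  intro i
  obtain ⟨a, ha⟩ := hcon i
  refine ⟨a, fun j => ?_⟩
  rw [hφ]
  exact ha (s j) (hsY j)

end Pool.Agent.Lib.MP_96bab1_co.U
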