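import Pool.Agent.Lib.MP_96bab1_co.U.Spec

set_option autoImplicit false

namespace Pool.Agent.Lib.MP_96bab1_co.U

open Filter Topology Pool.Agent.Lib.MP_96bab1_co

namespace GoodAAux

theorem four_le (u : ℝ) (h0 : 0 ≤ u) (h1 : u ≤ 1 / 2) : (4 : ℝ) ^ (-u) ≤ 1 - u := by
  have h := Real.geom_mean_le_arith_mean2_weighted (w₁ := 1 - 2 * u) (w₂ := 2 * u) (p₁ := 1)
    (p₂ := 1 / 2) (by linarith) (by linarith) (by norm_num) (by norm_num) (by ring)
  rw [Real.one_rpow, one_mul] at h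
  have h2 : (1 / 2 : ℝ) ^ (2 * u) = (4 : ℝ) ^ (-u) := by
    rw [Real.rpow_mul (by norm_num), Real.rpow_neg (by norm_num), ← Real.inv_rpow (by norm_num)]
    norm_num
  rw [h2] at h
  linarith

theorem desc (q : ℕ) (s : ℕ) (h : 2 * s ≤ q) : (q : ℝ) ^ s * (4 : ℝ) ^ (-((s : ℝ) ^ 2 / (2 * q))) ≤
    (q.descFactorial s : ℝ) := by
  induction s with
  | zero => simp
  | succ s ih =>
    have h1 := ih (by omega)
    have hq : (0 : ℝ) < q := by exact_mod_cast (by omega : 0 < q)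
    rw [Nat.descFactorial_succ, Nat.cast_mul, Nat.cast_sub (by omega)]
    have h2 := four_le ((s : ℝ) / q) (by positivity) (by
      rw [div_le_div_iff₀ hq (by norm_num)]
      have h5 : s * 2 ≤ 1 * q := by omega
      exact_mod_cast h5)
    have h3 : (q : ℝ) * (1 - (s : ℝ) / q) = q - s := by field_simp
    have h4 := mul_le_mul_of_nonneg_left h2 hq.le
    rw [h3] at h4
    have h5 : (4 : ℝ) ^ (-(((s + 1 : ℕ) : ℝ) ^ 2 / (2 * q))) ≤
        (4 : ℝ) ^ (-((s : ℝ) ^ 2 / (2 * q))) * (4 : ℝ) ^ (-((s : ℝ) / q)) := by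
      rw [← Real.rpow_add (by norm_num)]
      apply Real.rpow_le_rpow_of_exponent_le (by norm_num)
      have h6 : -(((s + 1 : ℕ) : ℝ) ^ 2 / (2 * q)) = -((s : ℝ) ^ 2 / (2 * q)) + -((s : ℝ) / q) -
          1 / (2 * q) := by
        push_cast
        field_simp
        ring
      rw [h6]
      have : 0 ≤ 1 / (2 * (q : ℝ)) := by positivity
      linarith
    calc (q : ℝ) ^ (s + 1) * (4 : ℝ) ^ (-(((s + 1 : ℕ) : ℝ) ^ 2 / (2 * q))) ≤
        (q : ℝ) ^ (s + 1) * ((4 : ℝ) ^ (-((s : ℝ) ^ 2 / (2 * q))) * (4 : ℝ) ^ (-((s : ℝ) / q))) :=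
          mul_le_mul_of_nonneg_left h5 (by positivity)
      _ = (q * (4 : ℝ) ^ (-((s : ℝ) / q))) * ((q : ℝ) ^ s * (4 : ℝ) ^ (-((s : ℝ) ^ 2 / (2 * q)))) := by
          ring
      _ ≤ (q - s) * (q.descFactorial s : ℝ) := by
          apply mul_le_mul h4 h1 (by positivity)
          have : (s : ℝ) ≤ q := by exact_mod_cast (by omega : s ≤ q)
          linarith

end GoodAAux

open GoodAAux

theorem pGoodA : S_Sep → S_GoodA := by
  intro hS q k hk hkq
  have hq : (0 : ℝ) < q := by exact_mod_cast (by omega : 0 < q)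
  refine ⟨q, id, by omega, ?_⟩
  intro n φ hφ
  obtain ⟨s, hsk, hsn, 𝓖, h1, h2⟩ := hS q q k n id Finset.univ hk
    (by intro a _ b hab; exact hab) hkq φ hφ
  refine ⟨𝓖, h1, le_trans ?_ h2⟩
  rw [Finset.card_univ, Fintype.card_fin]
  have h3 := desc q s (by omega)
  have h4 : (4 : ℝ) ^ (-((k : ℝ) ^ 2 / (2 * q))) ≤ (4 : ℝ) ^ (-((s : ℝ) ^ 2 / (2 * q))) := by
    apply Real.rpow_le_rpow_of_exponent_le (by norm_num)
    rw [neg_le_neg_iff]
    apply div_le_div_of_nonneg_right _ (by positivity)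
    have : (s : ℝ) ≤ k := by exact_mod_cast hsk
    apply pow_le_pow_left₀ (by positivity) this
  have h5 : (8 : ℝ) ^ (-((k : ℝ) ^ 2 / q)) =
      (4 : ℝ) ^ (-((k : ℝ) ^ 2 / (2 * q))) * (4 : ℝ) ^ (-((k : ℝ) ^ 2 / q)) := by
    rw [← Real.rpow_add (by norm_num)]
    have h6 : (8 : ℝ) = (4 : ℝ) ^ (3 / 2 : ℝ) := by
      have h7 : (4 : ℝ) = (2 : ℝ) ^ (2 : ℝ) := by norm_num
      rw [h7, ← Real.rpow_mul (by norm_num)]
      norm_num
    rw [h6, ← Real.rpow_mul (by norm_num)]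
    congr 1
    field_simp
    ring
  rw [h5]
  calc (4 : ℝ) ^ (-((k : ℝ) ^ 2 / (2 * q))) * (4 : ℝ) ^ (-((k : ℝ) ^ 2 / q)) * (q : ℝ) ^ n =
      ((q : ℝ) ^ s * (4 : ℝ) ^ (-((k : ℝ) ^ 2 / (2 * q)))) * (q : ℝ) ^ (n - s) *
        (4 : ℝ) ^ (-((k : ℝ) ^ 2 / q)) := by
        have : (q : ℝ) ^ n = (q : ℝ) ^ s * (q : ℝ) ^ (n - s) := by
          rw [← pow_add]; congr 1; omega
        rw [this]; ring
    _ ≤ _ := by
        apply mul_le_mul_of_nonneg_right _ (by positivity)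
        apply mul_le_mul_of_nonneg_right _ (by positivity)
        exact le_trans (mul_le_mul_of_nonneg_left h4 (by positivity)) h3

end Pool.Agent.Lib.MP_96bab1_co.U
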