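import Pool.Agent.Lib.MP_96bab1_co.U.Spec

set_option autoImplicit false

namespace Pool.Agent.Lib.MP_96bab1_co.U

open Filter Topology Pool.Agent.Lib.MP_96bab1_co

namespace GoodBAux

theorem desc (k s : ℕ) (hk : 1 ≤ k) (hs : s ≤ k) :
    (k : ℝ) ^ s ≤ Real.exp k * (k.descFactorial s : ℝ) := by
  have hkr : (0 : ℝ) < k := by exact_mod_cast hk
  have h1 := Nat.factorial_mul_descFactorial hs
  have h2 := Real.pow_div_factorial_le_exp (k : ℝ) hkr.le k
  rw [div_le_iff₀ (by positivity)] at h2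
  have h3 : (k - s).factorial ≤ k ^ (k - s) :=
    (Nat.factorial_le_pow (k - s)).trans (Nat.pow_le_pow_left (by omega) _)
  have h4 : ((k - s).factorial : ℝ) ≤ (k : ℝ) ^ (k - s) := by exact_mod_cast h3
  have h5 : (k.factorial : ℝ) = ((k - s).factorial : ℝ) * (k.descFactorial s : ℝ) := by
    exact_mod_cast h1.symm
  have h6 : (k : ℝ) ^ k = (k : ℝ) ^ s * (k : ℝ) ^ (k - s) := by
    rw [← pow_add]; congr 1; omega
  rw [h5, h6] at h2
  have h7 : Real.exp k * (((k - s).factorial : ℝ) * (k.descFactorial s : ℝ)) ≤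
      (Real.exp k * (k.descFactorial s : ℝ)) * (k : ℝ) ^ (k - s) := by
    calc Real.exp k * (((k - s).factorial : ℝ) * (k.descFactorial s : ℝ)) =
        (Real.exp k * (k.descFactorial s : ℝ)) * ((k - s).factorial : ℝ) := by ring
      _ ≤ _ := mul_le_mul_of_nonneg_left h4 (by positivity)
  exact le_of_mul_le_mul_right (h2.trans h7) (by positivity)

end GoodBAux

open GoodBAux

theorem pGoodB : S_Sep → S_GoodB := by
  intro hS q k hk hkq hq2
  have hkr : (0 : ℝ) < k := by exact_mod_cast hk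
  have hQr : (0 : ℝ) < ((2 * k : ℕ) : ℝ) := by exact_mod_cast (by omega : 0 < 2 * k)
  let lam : Fin (2 * k) → Fin q := fun i => ⟨min (i : ℕ) (q - 1), by omega⟩
  let G : Finset (Fin (2 * k)) := Finset.univ.filter (fun i => (i : ℕ) < q - 1)
  have hG : G.card = q - 1 := by
    have h1 : G = (Finset.univ : Finset (Fin (q - 1))).map
        (Fin.castLEEmb (by omega : q - 1 ≤ 2 * k)) := by
      ext i
      simp only [G, Finset.mem_filter, Finset.mem_univ, true_and, Finset.mem_map]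
      constructor
      · intro h
        exact ⟨⟨i, h⟩, Fin.ext (by simp)⟩
      · rintro ⟨a, rfl⟩
        have := a.isLt
        simpa using this
    rw [h1, Finset.card_map, Finset.card_univ, Fintype.card_fin]
  refine ⟨2 * k, lam, by omega, ?_⟩
  intro n φ hφ
  obtain ⟨s, hsk, hsn, 𝓖, h1, h2⟩ := hS (2 * k) q k n lam G hk (by
    intro a ha b hab
    simp only [G, Finset.mem_filter, Finset.mem_univ, true_and] at ha
    simp only [lam, Fin.mk.injEq] at hab
    apply Fin.ext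
    omega) le_rfl φ hφ
  refine ⟨𝓖, h1, le_trans ?_ h2⟩
  have h3 := desc k s hk hsk
  have h4 : (k.descFactorial s : ℝ) ≤ (G.card.descFactorial s : ℝ) := by
    rw [hG]
    exact_mod_cast Nat.descFactorial_le s (by omega : k ≤ q - 1)
  have h5 : (4 : ℝ) ^ (-((k : ℝ) ^ 2 / ((2 * k : ℕ) : ℝ))) = (1 / 2) ^ k := by
    have h6 : -((k : ℝ) ^ 2 / ((2 * k : ℕ) : ℝ)) = (-(1 / 2 : ℝ)) * k := by
      push_cast
      field_simp
    rw [h6, Real.rpow_mul (by norm_num), Real.rpow_natCast]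
    congr 1
    have h7 : (4 : ℝ) = (2 : ℝ) ^ (2 : ℝ) := by norm_num
    rw [h7, ← Real.rpow_mul (by norm_num)]
    norm_num [Real.rpow_neg]
  rw [h5]
  have h6 : Real.exp (-((1 + Real.log 4) * k)) = Real.exp (-(k : ℝ)) * (1 / 4) ^ k := by
    have h7 : -((1 + Real.log 4) * (k : ℝ)) = -(k : ℝ) + (k : ℝ) * (-Real.log 4) := by ring
    rw [h7, Real.exp_add]
    congr 1
    rw [Real.exp_nat_mul, Real.exp_neg, Real.exp_log (by norm_num)]
    norm_num
  rw [h6]
  have h7 : ((2 * k : ℕ) : ℝ) ^ n = (2 : ℝ) ^ s * (k : ℝ) ^ s * ((2 * k : ℕ) : ℝ) ^ (n - s) := by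
    have : ((2 * k : ℕ) : ℝ) ^ n = ((2 * k : ℕ) : ℝ) ^ s * ((2 * k : ℕ) : ℝ) ^ (n - s) := by
      rw [← pow_add]; congr 1; omega
    rw [this]
    congr 1
    push_cast
    rw [mul_pow]
  have h8 : (2 : ℝ) ^ s ≤ 2 ^ k := pow_le_pow_right₀ (by norm_num) hsk
  have h9 : Real.exp (-(k : ℝ)) * (k : ℝ) ^ s ≤ (G.card.descFactorial s : ℝ) := by
    calc Real.exp (-(k : ℝ)) * (k : ℝ) ^ s ≤
        Real.exp (-(k : ℝ)) * (Real.exp k * (k.descFactorial s : ℝ)) :=
          mul_le_mul_of_nonneg_left h3 (by positivity)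
      _ = (k.descFactorial s : ℝ) := by
          rw [← mul_assoc, ← Real.exp_add]; simp
      _ ≤ _ := h4
  have h10 : (1 / 4 : ℝ) ^ k * 2 ^ s ≤ (1 / 2) ^ k := by
    calc (1 / 4 : ℝ) ^ k * 2 ^ s ≤ (1 / 4 : ℝ) ^ k * 2 ^ k :=
          mul_le_mul_of_nonneg_left h8 (by positivity)
      _ = (1 / 2) ^ k := by rw [← mul_pow]; norm_num
  calc Real.exp (-(k : ℝ)) * (1 / 4) ^ k * ((2 * k : ℕ) : ℝ) ^ n =
      (Real.exp (-(k : ℝ)) * (k : ℝ) ^ s) * ((2 * k : ℕ) : ℝ) ^ (n - s) *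
        ((1 / 4 : ℝ) ^ k * 2 ^ s) := by rw [h7]; ring
    _ ≤ (G.card.descFactorial s : ℝ) * ((2 * k : ℕ) : ℝ) ^ (n - s) * (1 / 2) ^ k := by
        apply mul_le_mul _ h10 (by positivity) (by positivity)
        exact mul_le_mul_of_nonneg_right h9 (by positivity)

end Pool.Agent.Lib.MP_96bab1_co.U
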