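import Pool.Agent.Lib.MP_96bab1_co.U.Spec

/-!
# Sequential k-IPP codes: a sequential `k`-IPP code is `(k+1)`-hash
-/

set_option autoImplicit false

namespace Pool.Agent.Lib.MP_96bab1_co.U

open Filter Topology Pool.Agent.Lib.MP_96bab1_co

theorem pHash : S_Hash := by
  classical
  intro q ℓ k C hk hC Z hZC hZ
  obtain ⟨A, hA⟩ := hC
  by_contra hcon
  push Not at hcon
  have h1 : ∀ i : Fin ℓ, ∃ x ∈ Z, ∃ y ∈ Z, x ≠ y ∧ x i = y i := by
    intro i
    by_contra h
    push Not at h
    apply hcon i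
    intro x hx y hy hxy
    by_contra hne
    exact h x hx y hy hne hxy
  choose u hu v hv huv huvi using h1
  set d : Word q ℓ := fun i => u i i with hd
  have hcons : ∀ z ∈ Z, ∀ p, (∀ j, j < p → j ≤ ℓ → stU A d j = ∅) →
      ∀ i : Fin ℓ, (i : ℕ) < p → ∃ x ∈ (Z.erase z) \ stU A d i, x i = d i := by
    intro z _ p hp i hi
    rw [hp i hi (by omega), Finset.sdiff_empty]
    by_cases h : u i = z
    · refine ⟨v i, Finset.mem_erase.2 ⟨fun h2 => huv i (h.trans h2.symm), hv i⟩, ?_⟩
      exact (huvi i).symm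
    · exact ⟨u i, Finset.mem_erase.2 ⟨h, hu i⟩, rfl⟩
  have hcard : ∀ z ∈ Z, (Z.erase z).card = k := by
    intro z hz
    rw [Finset.card_erase_of_mem hz, hZ]
    omega
  have hsub : ∀ z, Z.erase z ⊆ C := fun z => (Finset.erase_subset _ _).trans hZC
  have hne : Z.Nonempty := by
    rw [← Finset.card_pos]
    omega
  have key : ∀ p, p ≤ ℓ → stU A d p = ∅ := by
    intro p
    induction p using Nat.strong_induction_on with
    | _ p ih =>
      intro hp
      have h2 : ∀ z ∈ Z, stU A d p ⊆ Z.erase z := by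
        intro z hz
        exact (hA _ (hsub z) (hcard z hz).le _ _ (reach_stU A (Z.erase z) d p hp
          (hcons z hz p (fun j hj hj' => ih j hj hj')))).1
      rw [Finset.eq_empty_iff_forall_notMem]
      intro x hx
      obtain ⟨z, hz⟩ := hne
      have hxZ : x ∈ Z := (Finset.mem_erase.1 (h2 z hz hx)).2
      exact (Finset.mem_erase.1 (h2 x hxZ hx)).1 rfl
  obtain ⟨z, hz⟩ := hne
  have h3 := (hA _ (hsub z) (hcard z hz).le _ _ (reach_stU A (Z.erase z) d ℓ le_rfl
    (hcons z hz ℓ (fun j hj _ => key j hj.le)))).2 (pre_length d le_rfl)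
  rw [key ℓ le_rfl] at h3
  have h4 := hcard z hz
  rw [← h3] at h4
  simp at h4
  omega

end Pool.Agent.Lib.MP_96bab1_co.U
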