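import Pool.Agent.Lib.MP_96bab1_co.U.Spec

/-!
# Sequential k-IPP codes: averaging
-/

set_option autoImplicit false

namespace Pool.Agent.Lib.MP_96bab1_co.U

open Filter Topology Pool.Agent.Lib.MP_96bab1_co

theorem pHashUp : S_Hash → S_Mac → S_Cnt → S_HashUp := by
  classical
  intro hHash hMac hCnt q ℓ m C hq hm hC hmC
  set N := C.card with hN
  -- the number of the `T` with different symbols at `i`
  set E : Fin ℓ → ℕ := fun i => ((Finset.powersetCard m C).filter
    (fun T : Finset (Word q ℓ) =>
      Set.InjOn (fun x : Word q ℓ => x i) (T : Set (Word q ℓ)))).card with hE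
  have hEi : ∀ i, (E i : ℝ) * (q : ℝ) ^ m ≤ (q.choose m : ℝ) * (N : ℝ) ^ m := by
    intro i
    have h1 := hCnt (Word q ℓ) q m C (fun x => x i) ((Finset.powersetCard m C).filter
      (fun T : Finset (Word q ℓ) =>
        Set.InjOn (fun x : Word q ℓ => x i) (T : Set (Word q ℓ)))) (by
        intro T hT
        obtain ⟨h2, h3⟩ := Finset.mem_filter.1 hT
        obtain ⟨h4, h5⟩ := Finset.mem_powersetCard.1 h2
        exact ⟨h4, h5, h3⟩)
    have h2 := hMac q m (fun a => ((C.filter (fun v => v i = a)).card : ℝ))
      (fun a => Nat.cast_nonneg _)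
    have h3 : ∑ a : Fin q, ((C.filter (fun v => v i = a)).card : ℝ) = N := by
      have h4 : C.card = ∑ a : Fin q, (C.filter (fun v => v i = a)).card :=
        Finset.card_eq_sum_card_fiberwise (fun x _ => Finset.mem_coe.2 (Finset.mem_univ _))
      rw [hN, h4]
      push_cast
      rfl
    rw [h3] at h2
    exact (mul_le_mul_of_nonneg_right h1 (by positivity)).trans h2
  set D : Finset (Word q ℓ) → Finset (Fin ℓ) := fun T => Finset.univ.filter
    (fun i => Set.InjOn (fun x : Word q ℓ => x i) (T : Set (Word q ℓ))) with hD
  have hdc : ∑ T ∈ Finset.powersetCard m C, (D T).card = ∑ i, E i := by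
    simp only [hD, hE, Finset.card_filter]
    rw [Finset.sum_comm]
  have hne : (Finset.powersetCard m C).Nonempty := Finset.powersetCard_nonempty.2 hmC
  obtain ⟨T, hT, hle⟩ := Finset.exists_le_of_sum_le
    (f := fun T => (D T).card * N.choose m) (g := fun _ => ∑ i, E i) hne (by
      rw [← Finset.sum_mul, hdc, Finset.sum_const, Finset.card_powersetCard, smul_eq_mul]
      exact le_of_eq (mul_comm _ _))
  obtain ⟨hTC, hTm⟩ := Finset.mem_powersetCard.1 hT
  refine ⟨(D T).card, ?_, ?_⟩
  · have h1 : (C \ T).card ≤ q ^ (D T).card := by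
      have h2 : (C \ T).card ≤ (Finset.univ : Finset (D T → Fin q)).card := by
        apply Finset.card_le_card_of_injOn (fun x => fun i : D T => x i.1)
        · intro x _
          exact Finset.mem_coe.2 (Finset.mem_univ _)
        · intro x hx y hy hxy
          by_contra hne
          rw [Finset.mem_coe, Finset.mem_sdiff] at hx hy
          have hyT : y ∉ T := hy.2
          have hxT : x ∉ insert y T := by
            rw [Finset.mem_insert]
            rintro (h | h)
            · exact hne h
            · exact hx.2 h
          obtain ⟨i, hi⟩ := hHash q ℓ (m + 1) C (by omega) hC (insert x (insert y T)) (by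
            intro z hz
            rw [Finset.mem_insert, Finset.mem_insert] at hz
            rcases hz with rfl | rfl | hz
            · exact hx.1
            · exact hy.1
            · exact hTC hz) (by
            rw [Finset.card_insert_of_notMem hxT, Finset.card_insert_of_notMem hyT, hTm])
          have hiD : i ∈ D T := by
            rw [hD]
            refine Finset.mem_filter.2 ⟨Finset.mem_univ _, ?_⟩
            refine hi.mono ?_
            intro z hz
            rw [Finset.mem_coe] at hz ⊢
            exact Finset.mem_insert_of_mem (Finset.mem_insert_of_mem hz)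
          have h5 : x i = y i := congrFun hxy ⟨i, hiD⟩
          exact hne (hi (by simp) (by simp) h5)
      refine h2.trans (le_of_eq ?_)
      simp
    have h3 := Finset.card_sdiff_add_card_eq_card hTC
    omega
  · have h1 : ((D T).card : ℝ) * (N.choose m : ℝ) ≤ ∑ i, (E i : ℝ) := by
      exact_mod_cast hle
    calc ((D T).card : ℝ) * (N.choose m : ℝ) * (q : ℝ) ^ m ≤ (∑ i, (E i : ℝ)) * (q : ℝ) ^ m :=
          mul_le_mul_of_nonneg_right h1 (by positivity)
      _ = ∑ i, (E i : ℝ) * (q : ℝ) ^ m := Finset.sum_mul _ _ _
      _ ≤ ∑ _i : Fin ℓ, (q.choose m : ℝ) * (N : ℝ) ^ m := Finset.sum_le_sum (fun i _ => hEi i)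
      _ = (ℓ : ℝ) * (q.choose m : ℝ) * (N : ℝ) ^ m := by
          rw [Finset.sum_const, Finset.card_univ, Fintype.card_fin, nsmul_eq_mul]
          ring

end Pool.Agent.Lib.MP_96bab1_co.U
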