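import Pool.Agent.Lib.MP_96bab1_co.U.Spec

/-!
# The limsup bound (module `LimUp` of the project `U` for MP_96bab1_co)
-/

set_option autoImplicit false

namespace Pool.Agent.Lib.MP_96bab1_co.U

open Filter Topology Pool.Agent.Lib.MP_96bab1_co

namespace LimUpAux

private lemma desc_le (q : ℕ) (hq : 1 ≤ q) : ∀ m : ℕ,
    (q.descFactorial m : ℝ) ≤ (q : ℝ) ^ m * Real.exp (-(((m : ℝ) * (m - 1)) / (2 * q)))
  | 0 => by simp
  | m + 1 => by
    have ih := desc_le q hq m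
    have hq0 : (0 : ℝ) < q := by exact_mod_cast hq
    have h1 : ((q - m : ℕ) : ℝ) ≤ (q : ℝ) * Real.exp (-((m : ℝ) / q)) := by
      rcases le_or_gt m q with hm | hm
      · rw [Nat.cast_sub hm]
        have h2 := Real.add_one_le_exp (-((m : ℝ) / q))
        calc (q : ℝ) - m = q * (-((m : ℝ) / q) + 1) := by field_simp; ring
          _ ≤ q * Real.exp (-((m : ℝ) / q)) := mul_le_mul_of_nonneg_left h2 hq0.le
      · rw [Nat.sub_eq_zero_of_le hm.le, Nat.cast_zero]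
        positivity
    rw [Nat.descFactorial_succ, Nat.cast_mul]
    calc ((q - m : ℕ) : ℝ) * (q.descFactorial m : ℝ)
        ≤ ((q : ℝ) * Real.exp (-((m : ℝ) / q))) *
          ((q : ℝ) ^ m * Real.exp (-(((m : ℝ) * (m - 1)) / (2 * q)))) :=
          mul_le_mul h1 ih (by positivity) (by positivity)
      _ = (q : ℝ) ^ (m + 1) *
          (Real.exp (-((m : ℝ) / q)) * Real.exp (-(((m : ℝ) * (m - 1)) / (2 * q)))) := by
          ring
      _ = (q : ℝ) ^ (m + 1) *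
          Real.exp (-((((m + 1 : ℕ) : ℝ) * (((m + 1 : ℕ) : ℝ) - 1)) / (2 * q))) := by
          rw [← Real.exp_add]
          congr 2
          push_cast
          field_simp
          ring

private lemma le_desc (N m : ℕ) (ε : ℝ) (hN : 1 ≤ N) (hmN : m ≤ N)
    (h : (m : ℝ) ^ 2 ≤ ε * N) :
    (1 - ε) * (N : ℝ) ^ m ≤ (N.descFactorial m : ℝ) := by
  have hN0 : (0 : ℝ) < N := by exact_mod_cast hN
  have hm : (m : ℝ) ≤ N := by exact_mod_cast hmN
  have h1 : ((N : ℝ) - m) ^ m ≤ (N.descFactorial m : ℝ) := by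
    have h2 := Nat.pow_sub_le_descFactorial N m
    have h3 : (((N + 1 - m) ^ m : ℕ) : ℝ) ≤ (N.descFactorial m : ℝ) := by exact_mod_cast h2
    refine le_trans ?_ h3
    rw [Nat.cast_pow, Nat.cast_sub (by omega)]
    apply pow_le_pow_left₀ (by linarith)
    push_cast
    linarith
  refine le_trans ?_ h1
  have h4 : (-2 : ℝ) ≤ -((m : ℝ) / N) := by
    have : (m : ℝ) / N ≤ 1 := by rw [div_le_one hN0]; exact hm
    linarith
  have h5 := one_add_mul_le_pow h4 m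
  have h6 : (1 : ℝ) - ε ≤ 1 + (m : ℝ) * -((m : ℝ) / N) := by
    have : (m : ℝ) * ((m : ℝ) / N) ≤ ε := by
      rw [← mul_div_assoc, div_le_iff₀ hN0, ← pow_two]
      exact h
    linarith
  calc (1 - ε) * (N : ℝ) ^ m ≤ (1 + -((m : ℝ) / N)) ^ m * (N : ℝ) ^ m :=
        mul_le_mul_of_nonneg_right (h6.trans h5) (by positivity)
    _ = ((N : ℝ) - m) ^ m := by
        rw [← mul_pow]
        congr 1
        field_simp
        ring

private lemma exists_max (q ℓ k : ℕ) :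
    ∃ C : Finset (Word q ℓ), C.card = maxSize q ℓ k ∧ IsSeqIPP k C := by
  have h := Nat.sSup_mem (s := {n : ℕ | ∃ C : Finset (Word q ℓ), C.card = n ∧ IsSeqIPP k C})
    ⟨0, ∅, rfl, isSeqIPP_empty q ℓ k⟩ ⟨Fintype.card (Word q ℓ), by
      rintro n ⟨C', rfl, _⟩
      exact Finset.card_le_univ C'⟩
  exact h

private lemma log_card (hH : S_HashUp) (q m : ℕ) (hq : 2 ≤ q) (hm : 1 ≤ m) (ε : ℝ) (hε : 0 < ε)
    (hε1 : ε < 1) (N₀ : ℕ) (hN₀m : m ≤ N₀) (hN₀1 : 1 ≤ N₀) (hN₀ : (m : ℝ) ^ 2 ≤ ε * N₀) (ℓ : ℕ) :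
    Real.logb q (maxSize q ℓ (m + 1)) ≤
      Real.exp (-(((m : ℝ) * (m - 1)) / (2 * q))) / (1 - ε) * ℓ +
        (Real.logb q N₀ + Real.logb q ((m : ℝ) + 1)) := by
  set E := Real.exp (-(((m : ℝ) * (m - 1)) / (2 * q))) with hE
  have hE0 : 0 < E := Real.exp_pos _
  have hq1 : (1 : ℝ) < q := by exact_mod_cast (by omega : 1 < q)
  have hq0 : (0 : ℝ) < q := by linarith
  have h1ε : 0 < 1 - ε := by linarith
  have hlN₀ : 0 ≤ Real.logb q N₀ := Real.logb_nonneg hq1 (by exact_mod_cast hN₀1)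
  have hlm : 0 ≤ Real.logb q ((m : ℝ) + 1) :=
    Real.logb_nonneg hq1 (by linarith [(Nat.cast_nonneg m : (0 : ℝ) ≤ m)])
  have hfirst : 0 ≤ E / (1 - ε) * ℓ := by positivity
  obtain ⟨C, hcard, hC⟩ := exists_max q ℓ (m + 1)
  rw [← hcard]
  rcases lt_or_ge C.card N₀ with hlt | hge
  · rcases Nat.eq_zero_or_pos C.card with h0 | h0
    · rw [h0]
      simp only [Nat.cast_zero, Real.logb_zero]
      linarith
    · have : Real.logb q C.card ≤ Real.logb q N₀ :=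
        Real.logb_le_logb_of_le hq1 (by exact_mod_cast h0) (by exact_mod_cast hlt.le)
      linarith
  · obtain ⟨d, hd1, hd2⟩ := hH q ℓ m C (by omega) hm hC (by omega)
    set N := C.card with hN
    have hN1 : 1 ≤ N := by omega
    have hN0 : (0 : ℝ) < N := by exact_mod_cast hN1
    have hεN : (m : ℝ) ^ 2 ≤ ε * N := hN₀.trans (mul_le_mul_of_nonneg_left
      (by exact_mod_cast hge) hε.le)
    have h1 := le_desc N m ε hN1 (by omega) hεN
    have h2 := desc_le q (by omega) m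
    rw [← hE] at h2
    have h3 : (N.descFactorial m : ℝ) = (m.factorial : ℝ) * (N.choose m : ℝ) := by
      rw [Nat.descFactorial_eq_factorial_mul_choose]; push_cast; ring
    have h4 : (q.descFactorial m : ℝ) = (m.factorial : ℝ) * (q.choose m : ℝ) := by
      rw [Nat.descFactorial_eq_factorial_mul_choose]; push_cast; ring
    rw [h3] at h1
    rw [h4] at h2
    have hf : (0 : ℝ) < (m.factorial : ℝ) := by exact_mod_cast Nat.factorial_pos m
    have hP : (0 : ℝ) < (N : ℝ) ^ m * (q : ℝ) ^ m := by positivity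
    have h5 : (1 - ε) * d * ((N : ℝ) ^ m * (q : ℝ) ^ m) ≤
        (ℓ : ℝ) * E * ((N : ℝ) ^ m * (q : ℝ) ^ m) := by
      calc (1 - ε) * d * ((N : ℝ) ^ m * (q : ℝ) ^ m)
          = ((1 - ε) * (N : ℝ) ^ m) * ((d : ℝ) * (q : ℝ) ^ m) := by ring
        _ ≤ ((m.factorial : ℝ) * (N.choose m : ℝ)) * ((d : ℝ) * (q : ℝ) ^ m) :=
            mul_le_mul_of_nonneg_right h1 (by positivity)
        _ = (m.factorial : ℝ) * ((d : ℝ) * (N.choose m : ℝ) * (q : ℝ) ^ m) := by ring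
        _ ≤ (m.factorial : ℝ) * ((ℓ : ℝ) * (q.choose m : ℝ) * (N : ℝ) ^ m) :=
            mul_le_mul_of_nonneg_left hd2 hf.le
        _ = ((m.factorial : ℝ) * (q.choose m : ℝ)) * ((ℓ : ℝ) * (N : ℝ) ^ m) := by ring
        _ ≤ ((q : ℝ) ^ m * E) * ((ℓ : ℝ) * (N : ℝ) ^ m) :=
            mul_le_mul_of_nonneg_right h2 (by positivity)
        _ = (ℓ : ℝ) * E * ((N : ℝ) ^ m * (q : ℝ) ^ m) := by ring
    have h6 : (1 - ε) * d ≤ (ℓ : ℝ) * E := le_of_mul_le_mul_right h5 hP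
    have h7 : (d : ℝ) ≤ E / (1 - ε) * ℓ := by
      rw [div_mul_eq_mul_div, le_div_iff₀ h1ε]
      linarith
    have h8 : (N : ℝ) ≤ ((m : ℝ) + 1) * (q : ℝ) ^ d := by
      have h9 : 1 ≤ q ^ d := Nat.one_le_pow _ _ (by omega)
      have h10 : N ≤ (m + 1) * q ^ d := by
        nlinarith [Nat.mul_le_mul_left m h9]
      exact_mod_cast h10
    have h9 : Real.logb q N ≤ Real.logb q ((m : ℝ) + 1) + d := by
      calc Real.logb q N ≤ Real.logb q (((m : ℝ) + 1) * (q : ℝ) ^ d) :=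
            Real.logb_le_logb_of_le hq1 hN0 h8
        _ = Real.logb q ((m : ℝ) + 1) + d := by
            rw [Real.logb_mul (by positivity) (by positivity), Real.logb_pow,
              Real.logb_self_eq_one hq1, mul_one]
    linarith

private lemma limsup_le_div (hH : S_HashUp) (q m : ℕ) (hq : 2 ≤ q) (hm : 1 ≤ m) (ε : ℝ)
    (hε : 0 < ε) (hε1 : ε < 1) :
    limsup (fun ℓ : ℕ => rate q ℓ (m + 1)) atTop ≤
      Real.exp (-(((m : ℝ) * (m - 1)) / (2 * q))) / (1 - ε) := by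
  set E := Real.exp (-(((m : ℝ) * (m - 1)) / (2 * q))) with hE
  obtain ⟨N₁, hN₁⟩ := exists_nat_ge ((m : ℝ) ^ 2 / ε)
  have hN₀ : (m : ℝ) ^ 2 ≤ ε * ((max N₁ m : ℕ) : ℝ) := by
    have h1 : (m : ℝ) ^ 2 / ε ≤ ((max N₁ m : ℕ) : ℝ) :=
      hN₁.trans (by exact_mod_cast le_max_left N₁ m)
    rw [div_le_iff₀ hε] at h1
    linarith
  set c := Real.logb q ((max N₁ m : ℕ) : ℝ) + Real.logb q ((m : ℝ) + 1) with hc
  have hup : ∀ ℓ : ℕ, 1 ≤ ℓ → rate q ℓ (m + 1) ≤ E / (1 - ε) + c / ℓ := by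
    intro ℓ hℓ
    have hℓ' : (0 : ℝ) < ℓ := by exact_mod_cast hℓ
    have h1 := log_card hH q m hq hm ε hε hε1 (max N₁ m) (le_max_right _ _)
      (hm.trans (le_max_right _ _)) hN₀ ℓ
    unfold rate
    rw [div_le_iff₀ hℓ', add_mul, div_mul_cancel₀ _ hℓ'.ne']
    exact h1
  have hlim : Tendsto (fun ℓ : ℕ => E / (1 - ε) + c / (ℓ : ℝ)) atTop
      (𝓝 (E / (1 - ε) + 0)) :=
    tendsto_const_nhds.add (tendsto_natCast_atTop_atTop.const_div_atTop _)
  rw [add_zero] at hlim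
  rw [← hlim.limsup_eq]
  apply limsup_le_limsup
  · filter_upwards [eventually_ge_atTop 1] with ℓ hℓ
    exact hup ℓ hℓ
  · exact (bddBelow_rate q (m + 1)).isCoboundedUnder_le
  · exact hlim.isBoundedUnder_le

end LimUpAux

theorem pLimUp : S_HashUp → S_LimUp := by
  intro hH q k hk hq
  obtain ⟨m, rfl⟩ : ∃ m, k = m + 1 := ⟨k - 1, by omega⟩
  have hm : 1 ≤ m := by omega
  have hE : Real.exp (-(((((m + 1 : ℕ) : ℝ) - 1) * (((m + 1 : ℕ) : ℝ) - 2)) / (2 * q))) =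
      Real.exp (-(((m : ℝ) * (m - 1)) / (2 * q))) := by
    congr 2
    push_cast
    ring
  rw [hE]
  set E := Real.exp (-(((m : ℝ) * (m - 1)) / (2 * q))) with hE'
  set L := limsup (fun ℓ : ℕ => rate q ℓ (m + 1)) atTop with hL
  have hlim : Tendsto (fun ε : ℝ => E / (1 - ε)) (𝓝[>] 0) (𝓝 (E / (1 - 0))) := by
    refine Tendsto.mono_left ?_ nhdsWithin_le_nhds
    exact tendsto_const_nhds.div (tendsto_const_nhds.sub tendsto_id) (by norm_num)
  rw [sub_zero, div_one] at hlim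
  refine ge_of_tendsto hlim ?_
  have hmem : Set.Ioo (0 : ℝ) 1 ∈ 𝓝[>] (0 : ℝ) := Ioo_mem_nhdsGT (by norm_num)
  filter_upwards [hmem] with ε hε
  exact LimUpAux.limsup_le_div hH q m hq hm ε hε.1 hε.2

end Pool.Agent.Lib.MP_96bab1_co.U
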