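import Pool.Agent.Lib.MP_96bab1_co.U.Spec

/-!
MP_96bab1_co, module U/LinN: the numerical hypothesis of the random linear codes.
-/

open Filter

namespace Pool.Agent.Lib.MP_96bab1_co.U

namespace LinNAux

theorem choose_two_le (c k : ℕ) (hck : c + 1 ≤ 2 * k) :
    (((c + 1).choose 2 : ℕ) : ℝ) ≤ c * k := by
  have h1 : (c + 1).choose 2 * 2 = (c + 1) * c := by
    rw [Nat.choose_two_right, Nat.add_sub_cancel]
    exact Nat.div_mul_cancel (Nat.even_mul_pred_self (c + 1)).two_dvd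
  have h2 : (((c + 1).choose 2 : ℕ) : ℝ) * 2 = ((c : ℝ) + 1) * c := by exact_mod_cast h1
  have h3 : (c : ℝ) + 1 ≤ 2 * k := by exact_mod_cast hck
  have h4 : (0 : ℝ) ≤ c := Nat.cast_nonneg c
  nlinarith

theorem main_bound (ℓ τ k c : ℕ) (B : ℝ) (hτ : 1 ≤ τ) (hc : 1 ≤ c)
    (hck : c + 1 ≤ 2 * k) (hB : 1 ≤ B) (he : Real.exp 1 * (ℓ * k) ≤ B * τ) :
    ((ℓ.choose (τ * c + 1) : ℕ) : ℝ) * (((c + 1).choose 2 : ℕ) : ℝ) ^ (τ * c + 1)
      ≤ B ^ (τ * c + 1) := by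
  have hτR : (1 : ℝ) ≤ τ := by exact_mod_cast hτ
  have hcR : (1 : ℝ) ≤ c := by exact_mod_cast hc
  have hsR : ((τ * c + 1 : ℕ) : ℝ) = τ * c + 1 := by push_cast; ring
  generalize hs : τ * c + 1 = s at *
  have hs0 : (0 : ℝ) < s := by rw [hsR]; positivity
  have hf : (0 : ℝ) < (s.factorial : ℝ) := by exact_mod_cast s.factorial_pos
  have h1 : ((ℓ.choose s : ℕ) : ℝ) ≤ (ℓ : ℝ) ^ s / (s.factorial) := Nat.choose_le_pow_div s ℓ
  have h2 : (s : ℝ) ^ s / s.factorial ≤ Real.exp s :=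
    Real.pow_div_factorial_le_exp (s : ℝ) hs0.le s
  have h3 := choose_two_le c k hck
  have h5 : (ℓ : ℝ) * k * c / s * Real.exp 1 ≤ B := by
    rw [div_mul_eq_mul_div, div_le_iff₀ hs0, hsR]
    have : Real.exp 1 * (ℓ * k) * c ≤ B * τ * c :=
      mul_le_mul_of_nonneg_right he (by positivity)
    nlinarith
  calc ((ℓ.choose s : ℕ) : ℝ) * (((c + 1).choose 2 : ℕ) : ℝ) ^ s
      ≤ ((ℓ : ℝ) ^ s / (s.factorial)) * ((c : ℝ) * k) ^ s := by gcongr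
    _ = ((ℓ : ℝ) * k * c / s) ^ s * ((s : ℝ) ^ s / s.factorial) := by
        rw [div_pow, mul_pow, mul_pow, mul_pow]
        field_simp
    _ ≤ ((ℓ : ℝ) * k * c / s) ^ s * Real.exp s := by gcongr
    _ = ((ℓ : ℝ) * k * c / s * Real.exp 1) ^ s := by
        rw [mul_pow ((ℓ : ℝ) * k * c / s), ← Real.exp_nat_mul, mul_one]
    _ ≤ B ^ s := by gcongr

end LinNAux

open LinNAux

theorem pLinN : S_LinN := by
  intro p t ℓ τ k c B hk hτ hc hck hB hBp he h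
  have hkR : (1 : ℝ) ≤ k := by exact_mod_cast hk
  have h4 := main_bound ℓ τ k c B hτ hc hck hB he
  have hB0 : (0 : ℝ) ≤ B := by linarith
  have hp0 : (0 : ℝ) ≤ p := Nat.cast_nonneg p
  have key : 2 * (k : ℝ) * ((((ℓ.choose (τ * c + 1) : ℕ) : ℝ) *
      (((c + 1).choose 2 : ℕ) : ℝ) ^ (τ * c + 1)) * (p : ℝ) ^ (t * c)) ≤ (p : ℝ) ^ (τ * c + 1) := by
    calc 2 * (k : ℝ) * ((((ℓ.choose (τ * c + 1) : ℕ) : ℝ) *
          (((c + 1).choose 2 : ℕ) : ℝ) ^ (τ * c + 1)) * (p : ℝ) ^ (t * c))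
        ≤ 2 * (k : ℝ) * (B ^ (τ * c + 1) * (p : ℝ) ^ (t * c)) := by gcongr
      _ = (2 * (k : ℝ)) * ((B ^ τ * (p : ℝ) ^ t) ^ c * B) := by
          rw [pow_succ, pow_mul, pow_mul, mul_pow]; ring
      _ ≤ (2 * (k : ℝ)) ^ c * ((B ^ τ * (p : ℝ) ^ t) ^ c * B) := by
          have h6 : 2 * (k : ℝ) ≤ (2 * (k : ℝ)) ^ c :=
            le_self_pow₀ (by linarith) (by omega)
          gcongr
      _ = (2 * (k : ℝ) * (B ^ τ * (p : ℝ) ^ t)) ^ c * B := by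
          rw [mul_pow (2 * (k : ℝ))]; ring
      _ ≤ ((p : ℝ) ^ τ) ^ c * p := by gcongr
      _ = (p : ℝ) ^ (τ * c + 1) := by rw [pow_succ, pow_mul]
  exact_mod_cast key

end Pool.Agent.Lib.MP_96bab1_co.U
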