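import Pool.Agent.Lib.MP_96bab1_co.U.Spec

set_option autoImplicit false

namespace Pool.Agent.Lib.MP_96bab1_co.U

open Filter Topology Pool.Agent.Lib.MP_96bab1_co

namespace LowAux

theorem log_le (x : ℝ) (hx : 0 < x) : Real.log x ≤ 0.368 * x := by
  have he := Real.exp_one_gt_d9
  have he0 : 0 < Real.exp 1 := Real.exp_pos 1
  have h1 := Real.log_le_sub_one_of_pos (div_pos hx he0)
  rw [Real.log_div hx.ne' he0.ne', Real.log_exp] at h1
  have h2 : x / Real.exp 1 ≤ 0.368 * x := by
    rw [div_le_iff₀ he0]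
    nlinarith
  linarith

theorem log8 : Real.log 8 ≤ 2.1 := by
  have h : Real.log 8 = 3 * Real.log 2 := by
    rw [show (8 : ℝ) = 2 ^ 3 by norm_num, Real.log_pow]; norm_num
  rw [h]
  have := Real.log_two_lt_d9
  linarith

theorem log4 : Real.log 4 ≤ 1.4 := by
  have h : Real.log 4 = 2 * Real.log 2 := by
    rw [show (4 : ℝ) = 2 ^ 2 by norm_num, Real.log_pow]; norm_num
  rw [h]
  have := Real.log_two_lt_d9
  linarith

/-- `3k²(k+1) ≤ exp(k³/2)` -/
theorem logbig (k : ℕ) (hk : 2 ≤ k) :
    2 * Real.log (3 * (k : ℝ) ^ 2 * (k + 1)) ≤ (k : ℝ) ^ 3 := by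
  have hkr : (2 : ℝ) ≤ k := by exact_mod_cast hk
  rw [Real.log_mul (by positivity) (by positivity), Real.log_mul (by positivity) (by positivity),
    Real.log_pow]
  have h1 := log_le 3 (by norm_num)
  have h2 := log_le (k : ℝ) (by positivity)
  have h3 := log_le ((k : ℝ) + 1) (by positivity)
  have h5 : (4 : ℝ) ≤ (k : ℝ) ^ 2 := by nlinarith
  have h4 : 4 * (k : ℝ) ≤ (k : ℝ) ^ 3 := by
    calc 4 * (k : ℝ) ≤ (k : ℝ) ^ 2 * k := mul_le_mul_of_nonneg_right h5 (by linarith)
      _ = (k : ℝ) ^ 3 := by ring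
  push_cast
  nlinarith

end LowAux

open LowAux

theorem pLow : S_GoodA → S_GoodB → S_RR → S_RL → S_Low := by
  intro hA hB hRR hRL q k hk hkq
  have hkr : (2 : ℝ) ≤ k := by exact_mod_cast hk
  have hk0 : (0 : ℝ) < k := by linarith
  have hqr : (2 : ℝ) < q := by exact_mod_cast (by omega : 2 < q)
  have hq0 : (0 : ℝ) < q := by linarith
  have hlq : 0 < Real.log q := Real.log_pos (by linarith)
  have hlk : 0 < Real.log k := Real.log_pos (by linarith)
  have hkk : (k : ℝ) + 1 ≤ k ^ 2 := by nlinarith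
  have hD : (0 : ℝ) < (k : ℝ) * (k * (k + 1)) * Real.log q := by positivity
  have hexp : ∀ j : ℕ, (k : ℝ) ^ j = Real.exp (j * Real.log k) := by
    intro j
    rw [Real.exp_nat_mul, Real.exp_log hk0]
  rcases Nat.lt_or_ge q (2 * k) with hlt | hge
  · -- case 1
    have hqk : (q : ℝ) ≤ 2 * k := by exact_mod_cast hlt.le
    have h1 := hRR q k _ (by omega) (by omega) (Real.exp_pos _)
      (by rw [Real.exp_le_one_iff]
          have : 0 ≤ Real.log 4 := Real.log_nonneg (by norm_num)
          have : 0 ≤ (1 + Real.log 4) * (k : ℝ) := by positivity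
          linarith) (hB q k (by omega) hkq hlt)
    refine le_trans ?_ h1
    rw [le_div_iff₀ hD]
    have hl : Real.log q ≤ k := by
      have h2 := log_le (q : ℝ) hq0
      linarith
    have h2 : (k : ℝ) * (k * (k + 1)) * Real.log q ≤ k ^ 5 := by
      calc (k : ℝ) * (k * (k + 1)) * Real.log q ≤ (k : ℝ) * (k * k ^ 2) * k := by
            apply mul_le_mul _ hl hlq.le (by positivity)
            apply mul_le_mul_of_nonneg_left _ hk0.le
            exact mul_le_mul_of_nonneg_left hkk hk0.le
        _ = k ^ 5 := by ring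
    have h3 : (1 + Real.log 4) * (k : ℝ) ≤ 7 * ((k : ℝ) ^ 2 / q) := by
      rw [← mul_div_assoc, le_div_iff₀ hq0]
      have h4 := log4
      have h5 : (1 + Real.log 4) * (k : ℝ) * q ≤ (1 + 1.4) * (k : ℝ) * (2 * k) := by
        apply mul_le_mul _ hqk hq0.le (by positivity)
        apply mul_le_mul_of_nonneg_right _ hk0.le
        linarith
      nlinarith
    calc Real.exp (-(7 * ((k : ℝ) ^ 2 / q + Real.log k))) *
          ((k : ℝ) * (k * (k + 1)) * Real.log q) ≤
          Real.exp (-(7 * ((k : ℝ) ^ 2 / q + Real.log k))) * Real.exp ((5 : ℕ) * Real.log k) := by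
          rw [← hexp 5]
          exact mul_le_mul_of_nonneg_left h2 (Real.exp_pos _).le
      _ = Real.exp (-(7 * ((k : ℝ) ^ 2 / q)) - 2 * Real.log k) := by
          rw [← Real.exp_add]; congr 1; push_cast; ring
      _ ≤ Real.exp (-((1 + Real.log 4) * k)) := by
          apply Real.exp_le_exp.mpr
          linarith
  · rcases le_or_gt (2 * Real.log (3 * (k : ℝ) ^ 2 * (k + 1))) (Real.log q) with hc | hc
    · -- case 2
      have h1 := hRL q k hk (by omega)
      refine le_trans ?_ h1
      have hΛ : 0 < Real.log (3 * (k : ℝ) ^ 2 * (k + 1)) := by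
        apply Real.log_pos
        nlinarith
      have h2 : Real.log (3 * (k : ℝ) ^ 2 * (k + 1)) / Real.log q ≤ 1 / 2 := by
        rw [div_le_div_iff₀ hlq (by norm_num)]
        linarith
      have h3 : 1 / ((k : ℝ) * (k + 1)) ≤
          2 / ((k : ℝ) * (k + 1)) * (1 - Real.log (3 * (k : ℝ) ^ 2 * (k + 1)) / Real.log q) := by
        have h4 : 1 / ((k : ℝ) * (k + 1)) = 2 / ((k : ℝ) * (k + 1)) * (1 / 2) := by
          field_simp
        rw [h4]
        apply mul_le_mul_of_nonneg_left _ (by positivity)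
        linarith
      refine le_trans ?_ h3
      rw [le_div_iff₀ (by positivity)]
      have h5 : (k : ℝ) * (k + 1) ≤ k ^ 3 := by
        calc (k : ℝ) * (k + 1) ≤ k * k ^ 2 := mul_le_mul_of_nonneg_left hkk hk0.le
          _ = k ^ 3 := by ring
      calc Real.exp (-(7 * ((k : ℝ) ^ 2 / q + Real.log k))) * ((k : ℝ) * (k + 1)) ≤
          Real.exp (-(7 * ((k : ℝ) ^ 2 / q + Real.log k))) * Real.exp ((3 : ℕ) * Real.log k) := by
            rw [← hexp 3]
            exact mul_le_mul_of_nonneg_left h5 (Real.exp_pos _).le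
        _ = Real.exp (-(7 * ((k : ℝ) ^ 2 / q)) - 4 * Real.log k) := by
            rw [← Real.exp_add]; congr 1; push_cast; ring
        _ ≤ 1 := by
            rw [Real.exp_le_one_iff]
            have : 0 ≤ (k : ℝ) ^ 2 / q := by positivity
            linarith
    · -- case 3
      have hP : (8 : ℝ) ^ (-((k : ℝ) ^ 2 / q)) = Real.exp (-(Real.log 8 * ((k : ℝ) ^ 2 / q))) := by
        rw [Real.rpow_def_of_pos (by norm_num)]
        congr 1; ring
      have hl8 : 0 ≤ Real.log 8 := Real.log_nonneg (by norm_num)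
      have hx0 : 0 ≤ (k : ℝ) ^ 2 / q := by positivity
      have h1 := hRR q k _ (by omega) (by omega) (by rw [hP]; exact Real.exp_pos _)
        (by rw [hP, Real.exp_le_one_iff]
            have : 0 ≤ Real.log 8 * ((k : ℝ) ^ 2 / q) := mul_nonneg hl8 hx0
            linarith) (hA q k (by omega) hge)
      refine le_trans ?_ h1
      rw [le_div_iff₀ hD, hP]
      have hl : Real.log q ≤ k ^ 3 := by
        have := logbig k hk
        linarith
      have h2 : (k : ℝ) * (k * (k + 1)) * Real.log q ≤ k ^ 7 := by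
        calc (k : ℝ) * (k * (k + 1)) * Real.log q ≤ (k : ℝ) * (k * k ^ 2) * k ^ 3 := by
              apply mul_le_mul _ hl hlq.le (by positivity)
              apply mul_le_mul_of_nonneg_left _ hk0.le
              exact mul_le_mul_of_nonneg_left hkk hk0.le
          _ = k ^ 7 := by ring
      calc Real.exp (-(7 * ((k : ℝ) ^ 2 / q + Real.log k))) *
            ((k : ℝ) * (k * (k + 1)) * Real.log q) ≤
            Real.exp (-(7 * ((k : ℝ) ^ 2 / q + Real.log k))) * Real.exp ((7 : ℕ) * Real.log k) := by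
            rw [← hexp 7]
            exact mul_le_mul_of_nonneg_left h2 (Real.exp_pos _).le
        _ = Real.exp (-(7 * ((k : ℝ) ^ 2 / q))) := by
            rw [← Real.exp_add]; congr 1; push_cast; ring
        _ ≤ Real.exp (-(Real.log 8 * ((k : ℝ) ^ 2 / q))) := by
            apply Real.exp_le_exp.mpr
            have h3 : Real.log 8 * ((k : ℝ) ^ 2 / q) ≤ 7 * ((k : ℝ) ^ 2 / q) := by
              apply mul_le_mul_of_nonneg_right _ hx0
              have := log8
              linarith
            linarith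

end Pool.Agent.Lib.MP_96bab1_co.U
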