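import Pool.Agent.Lib.MP_96bab1_co.U.Spec

/-!
# Maclaurin's inequality (module `Mac` of the project `U` for MP_96bab1_co)
-/

set_option autoImplicit false

namespace Pool.Agent.Lib.MP_96bab1_co.U

open Finset

namespace MacAux

variable {q : ℕ}

/-- the elementary symmetric sum -/
private noncomputable def e (x : Fin q → ℝ) (m : ℕ) : ℝ :=
  ∑ S ∈ powersetCard m (univ : Finset (Fin q)), ∏ a ∈ S, x a

/-- the part of the sum not using `a` -/
private noncomputable def K (x : Fin q → ℝ) (m : ℕ) (a : Fin q) : ℝ :=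
  ∑ S ∈ (powersetCard m (univ : Finset (Fin q))).filter (fun S => a ∉ S), ∏ b ∈ S, x b

private lemma mul_K (x : Fin q → ℝ) (m : ℕ) (a : Fin q) :
    x a * K x m a =
      ∑ T ∈ (powersetCard (m + 1) (univ : Finset (Fin q))).filter (fun T => a ∈ T),
        ∏ b ∈ T, x b := by
  unfold K
  rw [mul_sum]
  refine Finset.sum_nbij' (fun S => insert a S) (fun T => T.erase a) ?_ ?_ ?_ ?_ ?_
  · intro S hS
    simp only [mem_filter, mem_powersetCard, subset_univ, true_and] at hS ⊢
    exact ⟨by rw [card_insert_of_notMem hS.2, hS.1], mem_insert_self _ _⟩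
  · intro T hT
    simp only [mem_filter, mem_powersetCard, subset_univ, true_and] at hT ⊢
    exact ⟨by rw [card_erase_of_mem hT.2, hT.1]; rfl, notMem_erase _ _⟩
  · intro S hS
    simp only [mem_filter] at hS
    exact erase_insert hS.2
  · intro T hT
    simp only [mem_filter] at hT
    exact insert_erase hT.2
  · intro S hS
    simp only [mem_filter] at hS
    rw [prod_insert hS.2]

private lemma sum_mul_K (x : Fin q → ℝ) (m : ℕ) :
    ∑ a, x a * K x m a = ((m : ℝ) + 1) * e x (m + 1) := by
  have h1 : ∑ a, x a * K x m a =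
      ∑ a, ∑ T ∈ powersetCard (m + 1) (univ : Finset (Fin q)),
        if a ∈ T then ∏ b ∈ T, x b else 0 := by
    refine sum_congr rfl fun a _ => ?_
    rw [mul_K, sum_filter]
  rw [h1, sum_comm]
  unfold e
  rw [mul_sum]
  refine sum_congr rfl fun T hT => ?_
  rw [← sum_filter, sum_const, nsmul_eq_mul]
  congr 1
  have : (univ.filter (fun a => a ∈ T)) = T := by ext a; simp
  rw [this, (mem_powersetCard.1 hT).2]
  push_cast
  ring

private lemma sum_K (x : Fin q → ℝ) (m : ℕ) :
    ∑ a, K x m a = ((q : ℝ) - m) * e x m := by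
  have h1 : ∑ a, K x m a =
      ∑ a, ∑ T ∈ powersetCard m (univ : Finset (Fin q)),
        if a ∉ T then ∏ b ∈ T, x b else 0 := by
    refine sum_congr rfl fun a _ => ?_
    unfold K
    rw [sum_filter]
  rw [h1, sum_comm]
  unfold e
  rw [mul_sum]
  refine sum_congr rfl fun T hT => ?_
  rw [← sum_filter, sum_const, nsmul_eq_mul]
  congr 1
  have h2 : (univ.filter (fun a => a ∉ T)) = univ \ T := by ext a; simp
  rw [h2, card_sdiff_of_subset (subset_univ T), (mem_powersetCard.1 hT).2, card_univ,
    Fintype.card_fin, Nat.cast_sub]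
  have := card_le_card (subset_univ T)
  rwa [(mem_powersetCard.1 hT).2, card_univ, Fintype.card_fin] at this

private lemma K_split (x : Fin q → ℝ) (m : ℕ) (a b : Fin q) :
    K x m a =
      (∑ S ∈ (powersetCard m (univ : Finset (Fin q))).filter (fun S => a ∉ S ∧ b ∉ S),
        ∏ c ∈ S, x c) +
      ∑ S ∈ (powersetCard m (univ : Finset (Fin q))).filter (fun S => a ∉ S ∧ b ∈ S),
        ∏ c ∈ S, x c := by
  unfold K
  rw [← sum_filter_add_sum_filter_not _ (fun S => b ∉ S), filter_filter, filter_filter]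
  congr 1
  refine sum_congr ?_ fun _ _ => rfl
  ext S
  simp

private lemma K_anti (x : Fin q → ℝ) (hx : ∀ a, 0 ≤ x a) (m : ℕ) (a b : Fin q)
    (hab : x a ≤ x b) : K x m b ≤ K x m a := by
  rcases eq_or_ne a b with rfl | hne
  · exact le_rfl
  rw [K_split x m a b, K_split x m b a]
  have h0 : (powersetCard m (univ : Finset (Fin q))).filter (fun S => b ∉ S ∧ a ∉ S) =
      (powersetCard m (univ : Finset (Fin q))).filter (fun S => a ∉ S ∧ b ∉ S) := by
    refine filter_congr fun S _ => ?_
    exact and_comm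
  rw [h0]
  refine add_le_add le_rfl ?_
  have h1 : ∑ S ∈ (powersetCard m (univ : Finset (Fin q))).filter (fun S => b ∉ S ∧ a ∈ S),
        ∏ c ∈ S, x c ≤
      ∑ S ∈ (powersetCard m (univ : Finset (Fin q))).filter (fun S => b ∉ S ∧ a ∈ S),
        ∏ c ∈ insert b (S.erase a), x c := by
    refine sum_le_sum fun S hS => ?_
    rw [mem_filter] at hS
    obtain ⟨-, hb, ha⟩ := hS
    rw [prod_insert (fun h => hb (mem_of_mem_erase h)), ← mul_prod_erase S x ha]
    exact mul_le_mul_of_nonneg_right hab (prod_nonneg fun c _ => hx c)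
  refine h1.trans (le_of_eq ?_)
  refine Finset.sum_nbij' (fun S => insert b (S.erase a)) (fun T => insert a (T.erase b))
    ?_ ?_ ?_ ?_ ?_
  · intro S hS
    simp only [mem_filter, mem_powersetCard, subset_univ, true_and] at hS ⊢
    obtain ⟨hc, hb, ha⟩ := hS
    have hb' : b ∉ S.erase a := fun h => hb (mem_of_mem_erase h)
    have hp : 0 < S.card := card_pos.2 ⟨a, ha⟩
    refine ⟨by rw [card_insert_of_notMem hb', card_erase_of_mem ha]; omega, ?_,
      mem_insert_self _ _⟩
    simp [hne]
  · intro S hS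
    simp only [mem_filter, mem_powersetCard, subset_univ, true_and] at hS ⊢
    obtain ⟨hc, ha, hb⟩ := hS
    have ha' : a ∉ S.erase b := fun h => ha (mem_of_mem_erase h)
    have hp : 0 < S.card := card_pos.2 ⟨b, hb⟩
    refine ⟨by rw [card_insert_of_notMem ha', card_erase_of_mem hb]; omega, ?_,
      mem_insert_self _ _⟩
    simp [hne.symm]
  · intro S hS
    simp only [mem_filter, mem_powersetCard, subset_univ, true_and] at hS
    obtain ⟨hc, hb, ha⟩ := hS
    have hb' : b ∉ S.erase a := fun h => hb (mem_of_mem_erase h)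
    show insert a ((insert b (S.erase a)).erase b) = S
    rw [erase_insert hb', insert_erase ha]
  · intro S hS
    simp only [mem_filter, mem_powersetCard, subset_univ, true_and] at hS
    obtain ⟨hc, ha, hb⟩ := hS
    have ha' : a ∉ S.erase b := fun h => ha (mem_of_mem_erase h)
    show insert b ((insert a (S.erase b)).erase a) = S
    rw [erase_insert ha', insert_erase hb]
  · intro S _
    rfl

private lemma step (x : Fin q → ℝ) (hx : ∀ a, 0 ≤ x a) (m : ℕ) :
    (q : ℝ) * (((m : ℝ) + 1) * e x (m + 1)) ≤ (∑ a, x a) * (((q : ℝ) - m) * e x m) := by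
  rw [← sum_mul_K, ← sum_K]
  have hanti : Antivary x (K x m) := by
    intro a b hlt
    by_contra hcon
    push Not at hcon
    exact absurd (K_anti x hx m a b hcon.le) (not_le.2 hlt)
  have := hanti.card_mul_sum_le_sum_mul_sum
  simpa using this

private lemma e_nonneg (x : Fin q → ℝ) (hx : ∀ a, 0 ≤ x a) (m : ℕ) : 0 ≤ e x m :=
  sum_nonneg fun _ _ => prod_nonneg fun c _ => hx c

private lemma main (x : Fin q → ℝ) (hx : ∀ a, 0 ≤ x a) :
    ∀ m : ℕ, e x m * (q : ℝ) ^ m ≤ (q.choose m : ℝ) * (∑ a, x a) ^ m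
  | 0 => by simp [e]
  | m + 1 => by
    have ih := main x hx m
    have hs : 0 ≤ ∑ a, x a := sum_nonneg fun a _ => hx a
    rcases le_or_gt (m + 1) q with hm | hm
    · have hq : (m : ℝ) ≤ q := by exact_mod_cast (Nat.le_of_succ_le hm)
      have h1 := step x hx m
      have hch : (q.choose (m + 1) : ℝ) * ((m : ℝ) + 1) = (q.choose m : ℝ) * ((q : ℝ) - m) := by
        have := Nat.choose_succ_right_eq q m
        have h2 : ((q.choose (m + 1) * (m + 1) : ℕ) : ℝ) = ((q.choose m * (q - m) : ℕ) : ℝ) := by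
          rw [this]
        rw [Nat.cast_mul, Nat.cast_mul, Nat.cast_sub (Nat.le_of_succ_le hm)] at h2
        push_cast at h2
        exact h2
      have hpos : (0 : ℝ) < (m : ℝ) + 1 := by positivity
      refine le_of_mul_le_mul_left ?_ hpos
      calc ((m : ℝ) + 1) * (e x (m + 1) * (q : ℝ) ^ (m + 1))
          = (q : ℝ) ^ m * ((q : ℝ) * (((m : ℝ) + 1) * e x (m + 1))) := by ring
        _ ≤ (q : ℝ) ^ m * ((∑ a, x a) * (((q : ℝ) - m) * e x m)) := by
            exact mul_le_mul_of_nonneg_left h1 (by positivity)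
        _ = ((∑ a, x a) * ((q : ℝ) - m)) * (e x m * (q : ℝ) ^ m) := by ring
        _ ≤ ((∑ a, x a) * ((q : ℝ) - m)) * ((q.choose m : ℝ) * (∑ a, x a) ^ m) := by
            exact mul_le_mul_of_nonneg_left ih (mul_nonneg hs (sub_nonneg.2 hq))
        _ = ((m : ℝ) + 1) * ((q.choose (m + 1) : ℝ) * (∑ a, x a) ^ (m + 1)) := by
            rw [pow_succ]
            linear_combination (-(∑ a, x a) ^ m * (∑ a, x a)) * hch
    · have h0 : e x (m + 1) = 0 := by
        unfold e
        rw [powersetCard_eq_empty.2 (by simpa using hm), sum_empty]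
      rw [h0, zero_mul]
      positivity

end MacAux

theorem pMac : S_Mac := fun _ m x hx => MacAux.main x hx m

end Pool.Agent.Lib.MP_96bab1_co.U
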