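import Pool.Agent.Lib.MP_96bab1_co.U.Spec

/-!
# The case `k = 1`
-/

set_option autoImplicit false

namespace Pool.Agent.Lib.MP_96bab1_co.U

open Filter Topology Pool.Agent.Lib.MP_96bab1_co

namespace OneAux

variable {q ℓ : ℕ}

/-- The tracer. -/
def tr (q ℓ : ℕ) : Tracer q ℓ := fun w _ => Finset.univ.filter fun d => List.ofFn d = w

theorem tr_ofFn (x : Word q ℓ) (U : Finset (Word q ℓ)) : tr q ℓ (List.ofFn x) U = {x} := by
  ext d
  simp only [tr, Finset.mem_filter, Finset.mem_univ, true_and, Finset.mem_singleton]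
  exact List.ofFn_injective.eq_iff

theorem tr_ne (w : List (Fin q)) (U : Finset (Word q ℓ)) (hw : w.length ≠ ℓ) :
    tr q ℓ w U = ∅ := by
  ext d
  simp only [tr, Finset.mem_filter, Finset.mem_univ, true_and, Finset.notMem_empty, iff_false]
  rintro rfl
  exact hw (List.length_ofFn)

theorem inv (hℓ : 1 ≤ ℓ) (x : Word q ℓ) (w : List (Fin q)) (U : Finset (Word q ℓ))
    (h : Reach (tr q ℓ) {x} w U) :
    w.length ≤ ℓ ∧ w = (List.ofFn x).take w.length ∧ (w.length < ℓ → U = ∅) ∧
      (w.length = ℓ → U = {x}) := by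
  induction h with
  | start => exact ⟨by simp, by simp, fun _ => rfl, fun h => by simp at h; omega⟩
  | round w U i y _ hlen hy ih =>
    obtain ⟨-, h2, h3, -⟩ := ih
    have hU : U = ∅ := h3 (by rw [hlen]; exact i.2)
    have hyx : y = x := by
      have := (Finset.mem_sdiff.1 hy).1
      exact Finset.mem_singleton.1 this
    subst hyx
    have hw : w ++ [y i] = (List.ofFn y).take ((i : ℕ) + 1) := by
      rw [List.take_add_one, ← hlen, ← h2, hlen]
      simp
    have hl : (w ++ [y i]).length = (i : ℕ) + 1 := by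
      rw [List.length_append, hlen, List.length_singleton]
    refine ⟨by rw [hl]; exact i.2, by rw [hl]; exact hw, fun h => ?_, fun h => ?_⟩
    · rw [hU, tr_ne _ _ h.ne, Finset.union_empty]
    · have e : w ++ [y i] = List.ofFn y := by
        rw [hw]
        refine List.take_of_length_le ?_
        rw [List.length_ofFn]
        omega
      rw [hU, e, tr_ofFn, Finset.empty_union]

theorem ipp (hℓ : 1 ≤ ℓ) : IsSeqIPP 1 (Finset.univ : Finset (Word q ℓ)) := by
  refine ⟨tr q ℓ, fun X _ hX w U h => ?_⟩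
  rcases X.eq_empty_or_nonempty with rfl | ⟨x, hx⟩
  · have hw : w = [] ∧ U = ∅ := by
      induction h with
      | start => exact ⟨rfl, rfl⟩
      | round w U i y _ _ hy _ => simp at hy
    obtain ⟨rfl, rfl⟩ := hw
    exact ⟨subset_rfl, fun _ => rfl⟩
  · have hXx : X = {x} := by
      refine Finset.eq_singleton_iff_unique_mem.2 ⟨hx, fun y hy => ?_⟩
      exact Finset.card_le_one.1 hX y hy x hx
    subst hXx
    obtain ⟨h1, -, h3, h4⟩ := inv hℓ x w U h
    refine ⟨?_, h4⟩
    rcases h1.lt_or_eq with h5 | h5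
    · rw [h3 h5]
      exact Finset.empty_subset _
    · rw [h4 h5]

end OneAux

theorem pOne : S_One := by
  intro q ℓ hq hℓ
  have h1 : maxSize q ℓ 1 = q ^ ℓ := by
    refine le_antisymm (maxSize_le_pow q ℓ 1) ?_
    have := le_maxSize (Finset.univ : Finset (Word q ℓ)) (OneAux.ipp hℓ)
    simpa using this
  have hq1 : (1 : ℝ) < q := by exact_mod_cast (by omega : 1 < q)
  have hℓ0 : (ℓ : ℝ) ≠ 0 := by
    have : ℓ ≠ 0 := by omega
    exact_mod_cast this
  unfold rate
  rw [h1, Nat.cast_pow, Real.logb_pow, Real.logb_self_eq_one hq1, mul_one, div_self hℓ0]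

end Pool.Agent.Lib.MP_96bab1_co.U
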