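import Pool.Agent.Lib.MP_96bab1_co.U.Spec

/-!
# The rate of random linear codes
-/

set_option autoImplicit false

namespace Pool.Agent.Lib.MP_96bab1_co.U

open Filter Topology Pool.Agent.Lib.MP_96bab1_co

namespace RLAux

theorem lower (h1 : S_Lin) (h2 : S_LinN) (k q : ℕ) (hk : 2 ≤ k)
    (hM : 3 * (k : ℝ) ^ 2 * (k + 1) < q) :
    ∃ c : ℝ, ∀ ℓ : ℕ, 13 * k + 6 * (k * (k + 1)) ≤ ℓ →
    2 / ((k : ℝ) * (k + 1)) * (1 - Real.log (3 * (k : ℝ) ^ 2 * (k + 1)) / Real.log q) - c / ℓ ≤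
      rate q ℓ k := by
  have hk2 : (2 : ℝ) ≤ k := by exact_mod_cast hk
  have hkpos : (0 : ℝ) < k := by linarith
  have hkk : (0 : ℝ) < k * (k + 1) := by positivity
  set M : ℝ := 3 * (k : ℝ) ^ 2 * (k + 1) with hMdef
  have hM36 : 36 ≤ M := by
    rw [hMdef]
    nlinarith [mul_nonneg hkpos.le (sub_nonneg.2 hk2), mul_nonneg (mul_nonneg hkpos.le hkpos.le)
      (sub_nonneg.2 hk2)]
  have hq2 : 2 ≤ q := by
    have : (2 : ℝ) ≤ q := by linarith
    exact_mod_cast this
  obtain ⟨p, hp, hp1, hp2⟩ := Nat.exists_prime_lt_and_le_two_mul (q / 2) (by omega)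
  have hpq : p ≤ q := by omega
  have hqp : q ≤ 2 * p := by omega
  have hpone : (1 : ℝ) < p := by exact_mod_cast hp.one_lt
  have hqone : (1 : ℝ) < q := by exact_mod_cast (by omega : 1 < q)
  have hqp' : (q : ℝ) ≤ 2 * p := by exact_mod_cast hqp
  have hlp : 0 < Real.log p := Real.log_pos hpone
  have hlq : 0 < Real.log q := Real.log_pos hqone
  have hlqp : Real.log q - Real.log 2 ≤ Real.log p := by
    have h1 : Real.log q ≤ Real.log (2 * p) := Real.log_le_log (by linarith) hqp'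
    rw [Real.log_mul (by norm_num) (by linarith)] at h1
    linarith
  set B : ℝ := M / 2 with hB
  have hB1 : 1 ≤ B := by rw [hB]; linarith
  have hBp : B ≤ p := by rw [hB]; linarith
  have hlB : Real.log B = Real.log M - Real.log 2 := by
    rw [hB, Real.log_div (by linarith) (by norm_num)]
  have hlB0 : 0 ≤ Real.log B := Real.log_nonneg hB1
  have hl2k : 0 ≤ Real.log (2 * k) := Real.log_nonneg (by linarith)
  set δ : ℝ := Real.log q - Real.log M with hδ
  have hδ0 : 0 ≤ δ := by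
    have := Real.log_le_log (by linarith : 0 < M) hM.le
    rw [hδ]
    linarith
  refine ⟨((2 * k / (k * (k + 1)) + 1) * δ + Real.log (2 * k) + Real.log p) / Real.log q, ?_⟩
  intro ℓ hℓ
  have hℓk : k ≤ ℓ := by omega
  have hℓ1 : 1 ≤ ℓ := by omega
  have hℓ' : (0 : ℝ) < ℓ := by exact_mod_cast hℓ1
  have hℓR : 13 * (k : ℝ) + 6 * (k * (k + 1)) ≤ ℓ := by exact_mod_cast hℓ
  set τ := (2 * (ℓ - k)) / (k * (k + 1)) with hτ
  have hkk' : 0 < k * (k + 1) := by positivity
  have hτle : τ * (k * (k + 1)) + 2 * k ≤ 2 * ℓ := by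
    have := Nat.div_mul_le_self (2 * (ℓ - k)) (k * (k + 1))
    rw [← hτ] at this
    omega
  have hτ1 : 1 ≤ τ := by
    rw [hτ]
    exact Nat.div_pos (by omega) hkk'
  have hτge : 2 * ((ℓ : ℝ) - k) / (k * (k + 1)) - 1 ≤ τ := by
    have h1 := Nat.lt_div_mul_add (a := 2 * (ℓ - k)) hkk'
    rw [← hτ] at h1
    have h2 : ((2 * (ℓ - k) : ℕ) : ℝ) < ((τ * (k * (k + 1)) + k * (k + 1) : ℕ) : ℝ) := by
      exact_mod_cast h1
    push_cast [Nat.cast_sub hℓk] at h2
    rw [tsub_le_iff_right, div_le_iff₀ hkk]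
    linarith
  have hexp : Real.exp 1 * (ℓ * k) ≤ B * τ := by
    have e1 : B * (2 * ((ℓ : ℝ) - k) / (k * (k + 1)) - 1) =
        3 * k * (ℓ - k) - 3 / 2 * k ^ 2 * (k + 1) := by
      rw [hB, hMdef]
      field_simp
    have e2 : B * (2 * ((ℓ : ℝ) - k) / (k * (k + 1)) - 1) ≤ B * τ :=
      mul_le_mul_of_nonneg_left hτge (by linarith)
    rw [e1] at e2
    refine le_trans ?_ e2
    have e3 : Real.exp 1 * (ℓ * k) ≤ 2.72 * (ℓ * k) :=
      mul_le_mul_of_nonneg_right (by linarith [Real.exp_one_lt_d9]) (by positivity)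
    refine le_trans e3 ?_
    nlinarith [mul_le_mul_of_nonneg_left hℓR hkpos.le, mul_pos hkpos hkpos,
      mul_pos hkpos (mul_pos hkpos hkpos)]
  set w := ⌈(τ * Real.log B + Real.log (2 * k)) / Real.log p⌉₊ with hw
  have hτ0 : (0 : ℝ) ≤ τ := Nat.cast_nonneg _
  have hw1 : τ * Real.log B + Real.log (2 * k) ≤ w * Real.log p := by
    have := Nat.le_ceil ((τ * Real.log B + Real.log (2 * k)) / Real.log p)
    rw [← hw, div_le_iff₀ hlp] at this
    exact this
  have hw2 : w * Real.log p < τ * Real.log B + Real.log (2 * k) + Real.log p := by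
    have := Nat.ceil_lt_add_one
      (by positivity : 0 ≤ (τ * Real.log B + Real.log (2 * k)) / Real.log p)
    rw [← hw] at this
    have h3 := mul_lt_mul_of_pos_right this hlp
    rw [add_mul, div_mul_cancel₀ _ hlp.ne', one_mul] at h3
    exact h3
  have hmain : τ * (Real.log p - Real.log B) - Real.log (2 * k) - Real.log p ≤
      Real.log (maxSize q ℓ k) := by
    rcases Nat.lt_or_ge τ w with hlt | hge
    · have h3 : (τ : ℝ) + 1 ≤ w := by exact_mod_cast hlt
      have h4 := mul_le_mul_of_nonneg_right h3 hlp.le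
      have h5 : 0 ≤ Real.log (maxSize q ℓ k) := Real.log_natCast_nonneg _
      nlinarith
    · have hpw : 2 * (k : ℝ) * B ^ τ ≤ (p : ℝ) ^ w := by
        have hB0 : 0 < B := by linarith
        have hp0 : (0 : ℝ) < p := by linarith
        refine (Real.log_le_log_iff (by positivity) (by positivity)).1 ?_
        rw [Real.log_mul (by positivity) (by positivity), Real.log_pow, Real.log_pow]
        linarith
      have hyp : 2 * (k : ℝ) * (B ^ τ * (p : ℝ) ^ (τ - w)) ≤ (p : ℝ) ^ τ := by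
        have hp0 : (0 : ℝ) < p := by linarith
        calc 2 * (k : ℝ) * (B ^ τ * (p : ℝ) ^ (τ - w)) =
            (2 * (k : ℝ) * B ^ τ) * (p : ℝ) ^ (τ - w) := by ring
          _ ≤ (p : ℝ) ^ w * (p : ℝ) ^ (τ - w) :=
            mul_le_mul_of_nonneg_right hpw (by positivity)
          _ = (p : ℝ) ^ τ := by rw [← pow_add, Nat.add_sub_cancel' hge]
      obtain ⟨C, hC, hcard⟩ := h1 p q (τ - w) ℓ τ k hp hpq (by omega) hτle (fun c hc => by
        rw [Finset.mem_Icc] at hc
        exact h2 p (τ - w) ℓ τ k c B (by omega) hτ1 hc.1 (by omega) hB1 hBp hexp hyp)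
      have h3 := le_maxSize C hC
      rw [hcard] at h3
      have h4 : ((p : ℝ)) ^ (τ - w) ≤ maxSize q ℓ k := by exact_mod_cast h3
      have h5 := Real.log_le_log (by positivity) h4
      rw [Real.log_pow, Nat.cast_sub hge] at h5
      nlinarith
  have hkey : (2 / ((k : ℝ) * (k + 1)) * ℓ - (2 * k / (k * (k + 1)) + 1)) * δ -
      Real.log (2 * k) - Real.log p ≤ Real.log (maxSize q ℓ k) := by
    refine le_trans ?_ hmain
    have e1 : 2 * ((ℓ : ℝ) - k) / (k * (k + 1)) =
        2 / (k * (k + 1)) * ℓ - 2 * k / (k * (k + 1)) := by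
      field_simp
    have e2 : (2 / ((k : ℝ) * (k + 1)) * ℓ - (2 * k / (k * (k + 1)) + 1)) * δ ≤ τ * δ :=
      mul_le_mul_of_nonneg_right (by linarith) hδ0
    have e3 : τ * δ ≤ τ * (Real.log p - Real.log B) :=
      mul_le_mul_of_nonneg_left (by rw [hlB, hδ]; linarith) hτ0
    linarith
  have hfin : (2 / ((k : ℝ) * (k + 1)) * (1 - Real.log M / Real.log q) -
      ((2 * k / (k * (k + 1)) + 1) * δ + Real.log (2 * k) + Real.log p) / Real.log q / ℓ) *
        (ℓ * Real.log q) ≤ rate q ℓ k * (ℓ * Real.log q) := by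
    have e1 : rate q ℓ k * (ℓ * Real.log q) = Real.log (maxSize q ℓ k) := by
      unfold rate
      rw [Real.logb]
      field_simp
    have e2 : (2 / ((k : ℝ) * (k + 1)) * (1 - Real.log M / Real.log q) -
        ((2 * k / (k * (k + 1)) + 1) * δ + Real.log (2 * k) + Real.log p) / Real.log q / ℓ) *
        (ℓ * Real.log q) = (2 / ((k : ℝ) * (k + 1)) * ℓ - (2 * k / (k * (k + 1)) + 1)) * δ -
      Real.log (2 * k) - Real.log p := by
      rw [hδ]
      field_simp
      ring
    rw [e1, e2]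
    exact hkey
  exact le_of_mul_le_mul_right hfin (by positivity)

end RLAux

theorem pRL : S_Lin → S_LinN → S_RL := by
  intro h1 h2 q k hk hq
  have hk2 : (2 : ℝ) ≤ k := by exact_mod_cast hk
  have hqone : (1 : ℝ) < q := by exact_mod_cast (by omega : 1 < q)
  have hlq : 0 < Real.log q := Real.log_pos hqone
  have hkpos : (0 : ℝ) < k := by linarith
  rcases le_or_gt (q : ℝ) (3 * (k : ℝ) ^ 2 * (k + 1)) with hM | hM
  · have e1 : 2 / ((k : ℝ) * (k + 1)) *
        (1 - Real.log (3 * (k : ℝ) ^ 2 * (k + 1)) / Real.log q) ≤ 0 := by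
      refine mul_nonpos_of_nonneg_of_nonpos (by positivity) ?_
      rw [sub_nonpos, one_le_div hlq]
      exact Real.log_le_log (by linarith) hM
    refine e1.trans ?_
    refine le_liminf_of_le (bddAbove_rate q k).isCoboundedUnder_ge ?_
    exact Eventually.of_forall fun ℓ => rate_nonneg q ℓ k
  · obtain ⟨c, hc⟩ := RLAux.lower h1 h2 k q hk hM
    have hlim : Tendsto (fun ℓ : ℕ => 2 / ((k : ℝ) * (k + 1)) *
        (1 - Real.log (3 * (k : ℝ) ^ 2 * (k + 1)) / Real.log q) - c / (ℓ : ℝ)) atTop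
        (𝓝 (2 / ((k : ℝ) * (k + 1)) *
        (1 - Real.log (3 * (k : ℝ) ^ 2 * (k + 1)) / Real.log q) - 0)) :=
      tendsto_const_nhds.sub (tendsto_natCast_atTop_atTop.const_div_atTop c)
    rw [sub_zero] at hlim
    rw [← hlim.liminf_eq]
    apply liminf_le_liminf
    · filter_upwards [eventually_ge_atTop (13 * k + 6 * (k * (k + 1)))] with ℓ hℓ
      exact hc ℓ hℓ
    · exact hlim.isBoundedUnder_ge
    · exact (bddAbove_rate q k).isCoboundedUnder_ge

end Pool.Agent.Lib.MP_96bab1_co.U
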