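import Pool.Agent.Lib.MP_96bab1_co.U.Spec

/-!
# The rate of random codes
-/

set_option autoImplicit false

namespace Pool.Agent.Lib.MP_96bab1_co.U

open Filter Topology Pool.Agent.Lib.MP_96bab1_co

theorem pRR : S_Ex → S_RR := by
  intro hEx q k P hk hq hP hP1 hG
  have hq1 : (1 : ℝ) < q := by exact_mod_cast (by omega : 1 < q)
  have hlq : 0 < Real.log q := Real.log_pos hq1
  set V := k * (k + 1) with hV
  have hVpos : 0 < V := by positivity
  have hVr : (0 : ℝ) < V := by exact_mod_cast hVpos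
  have hkr : (0 : ℝ) < k := by exact_mod_cast hk
  set ρ : ℝ := Real.exp P with hρ
  have hρ1 : 1 < ρ := Real.one_lt_exp_iff.mpr hP
  have hlρP : Real.log ρ = P := Real.log_exp P
  have hlρ : 0 < Real.log ρ := Real.log_pos hρ1
  -- the size of the codes
  have hcode : ∀ ℓ m : ℕ, 1 ≤ m → k * m ≤ ℓ → 4 ≤ ρ ^ ((m : ℝ) / V) →
      ρ ^ ((m : ℝ) / V) / 4 ≤ maxSize q ℓ k := by
    intro ℓ m hm hℓ hx4
    set x : ℝ := ρ ^ ((m : ℝ) / V) with hx
    set n : ℕ := ⌊x / 2⌋₊ with hn
    have hnx : (n : ℝ) ≤ x / 2 := Nat.floor_le (by linarith)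
    have hxn : x / 2 < n + 1 := Nat.lt_floor_add_one _
    have hxV : x ^ V = ρ ^ m := by
      rw [hx, ← Real.rpow_natCast, ← Real.rpow_mul (by linarith), div_mul_cancel₀ _ hVr.ne',
        Real.rpow_natCast]
    have hcount : ((n : ℝ) + 1) ^ (k * (k + 1)) * (1 - P) ^ m < 1 := by
      rw [← hV]
      have h1 : ((n : ℝ) + 1) ^ V < ρ ^ m := by
        rw [← hxV]
        apply pow_lt_pow_left₀ _ (by positivity) hVpos.ne'
        linarith
      have h2 : (1 - P) ^ m ≤ Real.exp (-P) ^ m := by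
        apply pow_le_pow_left₀ (by linarith)
        have := Real.add_one_le_exp (-P)
        linarith
      have h3 : (0 : ℝ) < Real.exp (-P) ^ m := pow_pos (Real.exp_pos _) m
      calc ((n : ℝ) + 1) ^ V * (1 - P) ^ m ≤ ((n : ℝ) + 1) ^ V * Real.exp (-P) ^ m :=
            mul_le_mul_of_nonneg_left h2 (by positivity)
        _ < ρ ^ m * Real.exp (-P) ^ m := mul_lt_mul_of_pos_right h1 h3
        _ = 1 := by
            rw [← mul_pow, hρ, ← Real.exp_add, add_neg_cancel, Real.exp_zero, one_pow]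
    obtain ⟨f, hf⟩ := hEx q k n m P hG hP1 hcount
    have hI := isSeqIPP_repeat (ℓ := ℓ) hm hℓ f hf
    have hinj := repeat_injective (ℓ := ℓ) hk hm hℓ f hf
    have h1 := le_maxSize _ hI
    rw [Finset.card_image_of_injective _ hinj, Finset.card_univ, Fintype.card_fin] at h1
    have h2 : (n : ℝ) ≤ maxSize q ℓ k := by exact_mod_cast h1
    linarith
  -- lower bound on the rate
  have hrate : ∀ᶠ ℓ : ℕ in atTop, Real.log ρ / (k * V * Real.log q) -
      ((Real.log ρ / V + Real.log 4) / Real.log q) / ℓ ≤ rate q ℓ k := by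
    have hlim : Tendsto (fun m : ℕ => ρ ^ ((m : ℝ) / V)) atTop atTop := by
      apply (tendsto_rpow_atTop_of_base_gt_one ρ hρ1).comp
      exact tendsto_natCast_atTop_atTop.atTop_div_const hVr
    have hdiv : Tendsto (fun ℓ : ℕ => ℓ / k) atTop atTop := Nat.tendsto_div_const_atTop (by omega)
    filter_upwards [(hlim.comp hdiv).eventually_ge_atTop 4, hdiv.eventually_ge_atTop 1,
      eventually_ge_atTop 1] with ℓ h4 hm1 hℓ1
    simp only [Function.comp] at h4
    have hℓ' : (0 : ℝ) < ℓ := by exact_mod_cast hℓ1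
    set m := ℓ / k with hm
    have hkm : k * m ≤ ℓ := Nat.mul_div_le ℓ k
    have hmr : (ℓ : ℝ) / k - 1 ≤ m := by
      have h1 := Nat.lt_div_mul_add (a := ℓ) (by omega : 0 < k)
      rw [← hm] at h1
      have h2 : (ℓ : ℝ) < m * k + k := by exact_mod_cast h1
      rw [tsub_le_iff_right, div_le_iff₀ hkr]
      linarith
    have h1 := hcode ℓ m hm1 hkm h4
    have h2 : Real.log (ρ ^ ((m : ℝ) / V) / 4) ≤ Real.log (maxSize q ℓ k) :=
      Real.log_le_log (by linarith) h1
    rw [Real.log_div (by linarith) (by norm_num), Real.log_rpow (by linarith)] at h2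
    have h3 : ((ℓ : ℝ) / k - 1) / V * Real.log ρ ≤ (m : ℝ) / V * Real.log ρ := by
      apply mul_le_mul_of_nonneg_right _ hlρ.le
      exact div_le_div_of_nonneg_right hmr hVr.le
    have h4' : ((ℓ : ℝ) / k - 1) / V * Real.log ρ - Real.log 4 ≤ Real.log (maxSize q ℓ k) := by
      linarith
    unfold rate
    rw [Real.logb, le_div_iff₀ hℓ', le_div_iff₀ hlq]
    have h5 : (Real.log ρ / (k * V * Real.log q) -
        ((Real.log ρ / V + Real.log 4) / Real.log q) / ℓ) * ℓ * Real.log q =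
        ((ℓ : ℝ) / k - 1) / V * Real.log ρ - Real.log 4 := by
      field_simp
      ring
    rw [h5]
    exact h4'
  have hlim : Tendsto (fun ℓ : ℕ => Real.log ρ / (k * V * Real.log q) -
      ((Real.log ρ / V + Real.log 4) / Real.log q) / (ℓ : ℝ)) atTop
      (𝓝 (Real.log ρ / (k * V * Real.log q) - 0)) :=
    tendsto_const_nhds.sub (tendsto_natCast_atTop_atTop.const_div_atTop _)
  rw [sub_zero] at hlim
  have hfin : Real.log ρ / (k * V * Real.log q) ≤ liminf (fun ℓ : ℕ => rate q ℓ k) atTop := by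
    rw [← hlim.liminf_eq]
    exact liminf_le_liminf hrate hlim.isBoundedUnder_ge (bddAbove_rate q k).isCoboundedUnder_ge
  have hVc : (V : ℝ) = k * (k + 1) := by
    rw [hV]
    push_cast
    ring
  rw [hlρP, hVc] at hfin
  exact hfin

end Pool.Agent.Lib.MP_96bab1_co.U
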