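import Pool.Agent.Lib.MP_96bab1_co.U.Spec

set_option autoImplicit false

namespace Pool.Agent.Lib.MP_96bab1_co.U

open Filter Topology Pool.Agent.Lib.MP_96bab1_co

namespace SepAux

theorem four_le (u : ℝ) (h0 : 0 ≤ u) (h1 : u ≤ 1 / 2) : (4 : ℝ) ^ (-u) ≤ 1 - u := by
  have h := Real.geom_mean_le_arith_mean2_weighted (w₁ := 1 - 2 * u) (w₂ := 2 * u) (p₁ := 1)
    (p₂ := 1 / 2) (by linarith) (by linarith) (by norm_num) (by norm_num) (by ring)
  rw [Real.one_rpow, one_mul] at h
  have h2 : (1 / 2 : ℝ) ^ (2 * u) = (4 : ℝ) ^ (-u) := by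
    rw [Real.rpow_mul (by norm_num), Real.rpow_neg (by norm_num), ← Real.inv_rpow (by norm_num)]
    norm_num
  rw [h2] at h
  linarith

end SepAux

open SepAux

theorem pSep : S_Sep := by
  classical
  intro Q q k n lam G hk hG hQ φ hφ
  choose j hj using hφ
  set X := listed (φ 0) with hX
  have hXk : X.card ≤ k := card_listed_le _
  have hXn : X.card ≤ n := by simpa using Finset.card_le_univ X
  refine ⟨X.card, hXk, hXn, ?_⟩
  have hQ0 : 0 < Q := by omega
  have hQr : (0 : ℝ) < Q := by exact_mod_cast hQ0
  let J : Fin n → Finset {x // x ∈ X} := fun y =>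
    Finset.univ.filter (fun x : {x // x ∈ X} => y ∈ listed (φ (j x)))
  let K : ({x // x ∈ X} ↪ {a // a ∈ G}) → Fin n → Finset (Fin Q) := fun e y =>
    if hy : y ∈ X then {((e ⟨y, hy⟩ : {a // a ∈ G}) : Fin Q)}
    else Finset.univ \ (J y).image (fun x => ((e x : {a // a ∈ G}) : Fin Q))
  have hK1 : ∀ e y (hy : y ∈ X), K e y = {((e ⟨y, hy⟩ : {a // a ∈ G}) : Fin Q)} := by
    intro e y hy
    simp only [K, hy, dite_true]
  have hK2 : ∀ e y, y ∉ X →
      K e y = Finset.univ \ (J y).image (fun x => ((e x : {a // a ∈ G}) : Fin Q)) := by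
    intro e y hy
    simp only [K, hy, dite_false]
  refine ⟨Finset.univ.biUnion (fun e => Fintype.piFinset (K e)), ?_, ?_⟩
  · intro g hg
    rw [Finset.mem_biUnion] at hg
    obtain ⟨e, -, hg⟩ := hg
    rw [Fintype.mem_piFinset] at hg
    rintro ⟨a, ha⟩
    obtain ⟨x, hx, hxa⟩ := ha 0
    obtain ⟨y, hy, hya⟩ := ha (j x)
    have hgx : g x = ((e ⟨x, hx⟩ : {a // a ∈ G}) : Fin Q) := by
      have := hg x
      rw [hK1 e x hx, Finset.mem_singleton] at this
      exact this
    have hgxG : g x ∈ G := by rw [hgx]; exact (e ⟨x, hx⟩).2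
    have hyx : g y = g x := hG (g x) hgxG (g y) (by rw [hya, hxa])
    by_cases hyX : y ∈ X
    · have hgy : g y = ((e ⟨y, hyX⟩ : {a // a ∈ G}) : Fin Q) := by
        have := hg y
        rw [hK1 e y hyX, Finset.mem_singleton] at this
        exact this
      have h1 : e ⟨y, hyX⟩ = e ⟨x, hx⟩ := Subtype.ext (by rw [← hgy, ← hgx, hyx])
      have h2 := congrArg Subtype.val (e.injective h1)
      simp only at h2
      subst h2
      exact hj _ hy
    · have h1 := hg y
      rw [hK2 e y hyX, Finset.mem_sdiff] at h1
      apply h1.2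
      rw [Finset.mem_image]
      exact ⟨⟨x, hx⟩, by simp only [J, Finset.mem_filter, Finset.mem_univ, true_and]; exact hy,
        by rw [hyx, hgx]⟩
  · have hdisj : ∀ e ∈ (Finset.univ : Finset ({x // x ∈ X} ↪ {a // a ∈ G})),
        ∀ e' ∈ (Finset.univ : Finset ({x // x ∈ X} ↪ {a // a ∈ G})), e ≠ e' →
        Disjoint (Fintype.piFinset (K e)) (Fintype.piFinset (K e')) := by
      intro e _ e' _ hne
      rw [Finset.disjoint_left]
      intro g hg hg'
      rw [Fintype.mem_piFinset] at hg hg'
      apply hne
      ext x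
      have h1 := hg x
      have h2 := hg' x
      rw [hK1 e x x.2, Finset.mem_singleton] at h1
      rw [hK1 e' x x.2, Finset.mem_singleton] at h2
      rw [← h1, ← h2]
    rw [Finset.card_biUnion hdisj]
    have hJk : ∀ y, (J y).card ≤ k := by
      intro y
      refine (Finset.card_le_univ _).trans ?_
      rw [Fintype.card_coe]
      exact hXk
    have hJsum : ∑ y, (J y).card ≤ k * k := by
      have h1 : ∑ y, (J y).card = ∑ x : {x // x ∈ X}, (listed (φ (j x))).card := by
        simp only [J, Finset.card_filter]
        rw [Finset.sum_comm]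
        refine Finset.sum_congr rfl fun x _ => ?_
        rw [← Finset.card_filter]
        congr 1
        ext y
        simp
      rw [h1]
      calc ∑ x : {x // x ∈ X}, (listed (φ (j x))).card ≤ ∑ _x : {x // x ∈ X}, k :=
            Finset.sum_le_sum fun x _ => card_listed_le _
        _ = X.card * k := by simp
        _ ≤ k * k := Nat.mul_le_mul_right _ hXk
    have hone : ∀ e, (Q : ℝ) ^ (n - X.card) * (4 : ℝ) ^ (-((k : ℝ) ^ 2 / Q)) ≤
        ((Fintype.piFinset (K e)).card : ℝ) := by
      intro e
      rw [Fintype.card_piFinset, Nat.cast_prod]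
      have h1 : ∀ y, (if y ∈ X then (1 : ℝ) else Q * (4 : ℝ) ^ (-(((J y).card : ℝ) / Q))) ≤
          ((K e y).card : ℝ) := by
        intro y
        by_cases hy : y ∈ X
        · rw [if_pos hy, hK1 e y hy]
          simp
        · rw [if_neg hy, hK2 e y hy]
          have h2 : Q ≤ (Finset.univ \ (J y).image
              (fun x => ((e x : {a // a ∈ G}) : Fin Q))).card + (J y).card := by
            have h3 := Finset.le_card_sdiff ((J y).image
              (fun x => ((e x : {a // a ∈ G}) : Fin Q))) (Finset.univ : Finset (Fin Q))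
            have h4 : ((J y).image (fun x => ((e x : {a // a ∈ G}) : Fin Q))).card ≤ (J y).card :=
              Finset.card_image_le
            rw [Finset.card_univ, Fintype.card_fin] at h3
            omega
          have h3 : (Q : ℝ) ≤ ((Finset.univ \ (J y).image
              (fun x => ((e x : {a // a ∈ G}) : Fin Q))).card : ℝ) + (J y).card := by
            exact_mod_cast h2
          have h4 := four_le (((J y).card : ℝ) / Q) (by positivity) (by
            rw [div_le_div_iff₀ hQr (by norm_num)]
            have := hJk y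
            have h5 : (J y).card * 2 ≤ 1 * Q := by omega
            exact_mod_cast h5)
          have h5 : (Q : ℝ) * (1 - ((J y).card : ℝ) / Q) = Q - (J y).card := by
            field_simp
          have h6 := mul_le_mul_of_nonneg_left h4 hQr.le
          rw [h5] at h6
          linarith
      refine le_trans ?_ (Finset.prod_le_prod (fun y _ => ?_) (fun y _ => h1 y))
      · rw [Finset.prod_ite]
        simp only [Finset.prod_const_one, one_mul]
        rw [Finset.prod_mul_distrib, Finset.prod_const]
        have h2 : (Finset.univ.filter (fun y => y ∉ X)).card = n - X.card := by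
          rw [← Finset.compl_filter, Finset.card_compl, Fintype.card_fin]
          congr 2
          ext y; simp
        rw [h2]
        apply mul_le_mul_of_nonneg_left _ (by positivity)
        rw [← Real.rpow_sum_of_pos (by norm_num)]
        apply Real.rpow_le_rpow_of_exponent_le (by norm_num)
        rw [Finset.sum_neg_distrib, neg_le_neg_iff, ← Finset.sum_div]
        apply div_le_div_of_nonneg_right _ hQr.le
        have h3 : (∑ y ∈ Finset.univ.filter (fun y => y ∉ X), (J y).card) ≤ ∑ y, (J y).card :=
          Finset.sum_le_sum_of_subset (Finset.filter_subset _ _)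
        have h4 : ((∑ y ∈ Finset.univ.filter (fun y => y ∉ X), (J y).card : ℕ) : ℝ) ≤
            ((k * k : ℕ) : ℝ) := by exact_mod_cast h3.trans hJsum
        push_cast at h4
        rw [pow_two]
        exact h4
      · split_ifs
        · norm_num
        · positivity
    rw [Nat.cast_sum]
    calc (G.card.descFactorial X.card : ℝ) * (Q : ℝ) ^ (n - X.card) *
          (4 : ℝ) ^ (-((k : ℝ) ^ 2 / Q)) =
          ∑ _e : ({x // x ∈ X} ↪ {a // a ∈ G}), (Q : ℝ) ^ (n - X.card) *
            (4 : ℝ) ^ (-((k : ℝ) ^ 2 / Q)) := by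
          rw [Finset.sum_const, Finset.card_univ, Fintype.card_embedding_eq, Fintype.card_coe,
            Fintype.card_coe, nsmul_eq_mul]
          ring
      _ ≤ _ := Finset.sum_le_sum fun e _ => hone e

end Pool.Agent.Lib.MP_96bab1_co.U
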