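import Pool.Agent.Lib.MP_96bab1_co.Upper
import Pool.Agent.Lib.MP_96bab1_co.Linear
import Pool.Agent.Lib.MP_96bab1_co.Rate
import Pool.Agent.Lib.MP_96bab1_co.Separating
import Pool.Agent.Lib.MP_96bab1_co.History

/-!
# Sequential k-IPP codes: bounds for the asymptotic rate, uniform in `k` and `q`

Final theorem (`k < q`): for `k ≥ 2`
`exp(-7 (k²/q + ln k)) ≤ liminf R ≤ limsup R ≤ exp(-(k²/q + ln k)/18)`,
`(2/(k(k+1))) (1 - ln(3k²(k+1))/ln q) ≤ liminf R`, `limsup R ≤ 2/(k(k+1))`,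
`limsup R ≤ exp(-(k-1)(k-2)/(2q))`; and `R = 1` for `k = 1`.
-/

set_option autoImplicit false

namespace Pool.Agent.Lib.MP_96bab1_co.U

open Filter Topology Pool.Agent.Lib.MP_96bab1_co

/-- **Hash** (a sequential `k`-IPP code is `(k+1)`-hash).  Proof.  Let `A` be the tracer of `IsSeqIPP`.  Suppose that at every coordinate `i` two different words of `Z` agree; let `d i` be their common symbol (`d : Word q ℓ`).  CLAIM: `stU A d p = ∅` for all `p ≤ ℓ` (`stU`, `pre`, `reach_stU` of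
`Upper.lean`).  Induction on `p`: for every `z ∈ Z` the set `X = Z.erase z` has `k` elements and contains, for every `i`, one of the two words with the symbol `d i` at `i`, so (`stU A d i = ∅` for `i ≤ p`) `reach_stU A X d (p+1)` applies and gives `stU A d (p+1) ⊆ Z.erase z`.  As this holds for every
`z ∈ Z` (and `Z ≠ ∅`) `stU A d (p+1) = ∅`.  With `p = ℓ` (`pre_length`): `stU A d ℓ = Z.erase z`, which has `k ≥ 1` elements: contradiction. -/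
def S_Hash : Prop := ∀ (q ℓ k : ℕ) (C : Finset (Word q ℓ)), 1 ≤ k → IsSeqIPP k C →
  ∀ Z ⊆ C, Z.card = k + 1 → ∃ i : Fin ℓ, Set.InjOn (fun x : Word q ℓ => x i) (Z : Set (Word q ℓ))

/-- **Mac** (Maclaurin's inequality `e_m(x)/C(q,m) ≤ (e_1(x)/q)^m`).  Proof.  Write `e_m = ∑_{S, |S| = m} ∏_S x`, `e_1 = ∑ x`.  Induction on `m`; it suffices (`Nat.choose_succ_right_eq`) that for `m ≤ q`
`(m+1) q e_(m+1) ≤ (q-m) e_1 e_m` (for `m ≥ q` the sum `e_(m+1)` is empty).  (1) `(m+1) e_(m+1) = ∑_{|S|=m} ∏_S x (e_1 - ∑_{a∈S} x a)`: count the pairs `(S', a)`, `|S'| = m+1`, `a ∈ S'`, `S = S'.erase a`.  (2) `J a = ∑_{|S|=m, a∈S} ∏_S x`: `∑_a J a = m e_m` and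
`∑_{|S|=m} ∏_S x ∑_{a∈S} x a = ∑_a x a J a`.  (3) `x a ≤ x b → J a ≤ J b`: the terms with `a, b ∈ S` are common; the terms with `a ∈ S`, `b ∉ S` are compared with those of `S' = insert b (S.erase a)`: `∏_S x = x a ∏_{S.erase a} x ≤ x b ∏_{S.erase a} x`.  (4) Chebyshev's sum inequality
(`Monovary.sum_mul_sum_le_card_mul_sum` or `MonovaryOn.…`): `(∑ x)(∑ J) ≤ q ∑ x J`.  So `q (m+1) e_(m+1) = q e_1 e_m - q ∑ x J ≤ q e_1 e_m - m e_1 e_m`. -/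
def S_Mac : Prop := ∀ (q m : ℕ) (x : Fin q → ℝ), (∀ a, 0 ≤ x a) →
  (∑ S ∈ Finset.powersetCard m Finset.univ, ∏ a ∈ S, x a) * (q : ℝ) ^ m ≤
    (q.choose m : ℝ) * (∑ a, x a) ^ m

/-- **Cnt** (sets with different symbols).  Proof.  The image `S = T.image f` has `m` elements for `T ∈ 𝓣`; `T ↦ (S, s)`, `s ∈ S.pi (fun a => V.filter (f · = a))` the section with `s a` = the unique `v ∈ T` with `f v = a`, is injective (`T` is the set of the values of `s`), and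
`(Finset.pi S …).card = ∏_{a∈S} (V.filter …).card` (`Finset.card_pi`).  (Or `Finset.card_eq_sum_card_fiberwise` / `Finset.card_le_mul_card_image` with the fibres over `S`.) -/
def S_Cnt : Prop := ∀ (α : Type) [DecidableEq α] (q m : ℕ) (V : Finset α) (f : α → Fin q)
  (𝓣 : Finset (Finset α)), (∀ T ∈ 𝓣, T ⊆ V ∧ T.card = m ∧ Set.InjOn f (T : Set α)) →
  (𝓣.card : ℝ) ≤ ∑ S ∈ Finset.powersetCard m Finset.univ,
    ∏ a ∈ S, ((V.filter (fun v => f v = a)).card : ℝ)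

/-- **HashUp** (from `Hash`, `Mac`, `Cnt`).  Proof.  `N = C.card`.  For a coordinate `i` let `E i` be the number of `T ∈ powersetCard m C` with `(· i)` injective on `T`.  `Cnt` and `Mac` (with `x a = (C.filter (· i = a)).card`, `∑ x = N`): `E i * q^m ≤ C(q,m) N^m`.  For
`T ∈ powersetCard m C` let `D T` be the set of the coordinates at which the words of `T` are different.  `∑_T (D T).card = ∑_i E i`, so there is a `T` (the set of the `T` is not empty, it has `C(N,m)` elements) with `(D T).card C(N,m) ≤ ∑_i E i`; `d = (D T).card`.  If `x ≠ y` are in `C \ T` then `Hash` for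
`insert x (insert y T)` gives an `i ∈ D T` with `x i ≠ y i`.  So the restriction to `D T` is injective on `C \ T` and `N - m ≤ q^d`. -/
def S_HashUp : Prop := ∀ (q ℓ m : ℕ) (C : Finset (Word q ℓ)), 1 ≤ q → 1 ≤ m →
  IsSeqIPP (m + 1) C → m ≤ C.card → ∃ d : ℕ, C.card ≤ m + q ^ d ∧
    (d : ℝ) * (C.card.choose m : ℝ) * (q : ℝ) ^ m ≤ (ℓ : ℝ) * (q.choose m : ℝ) * (C.card : ℝ) ^ m

/-- **LimUp** (from `HashUp`).  Proof.  `m = k - 1 ≥ 1`, `E = exp(-(k-1)(k-2)/(2q))`.  `C(q,m) m!/q^m = ∏_{i<m} (q-i)/q ≤ ∏ exp(-i/q) = E` (`Nat.descFactorial`; zero if `m > q`).  Let `0 < ε < 1` and `N₀ ≥ m²/ε`, `N₀ ≥ m`.  Let `C` be a sequential `k`-IPP code, `N = C.card ≥ N₀`: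
`C(N,m) m! = N(N-1)…(N-m+1) ≥ (N-m)^m ≥ N^m (1 - m²/N) ≥ (1-ε) N^m` (Bernoulli: `one_add_mul_le_pow`), so `HashUp` gives `(1-ε) d ≤ ℓ E`, `N ≤ m + q^d ≤ (m+1) q^d`, `log_q N ≤ d + log_q (m+1) ≤ ℓ E/(1-ε) + log_q(m+1)`.  So for all `ℓ ≥ 1`:
`rate q ℓ k ≤ E/(1-ε) + (log_q N₀ + log_q(m+1))/ℓ` (`maxSize` is attained or use `maxSize_le`), and `limsup ≤ E/(1-ε)` for all `ε` (as in `FixedAlphabetBounds.result`; `bddBelow_rate`).  Let `ε → 0` (`le_of_forall_pos_le_add`, …). -/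
def S_LimUp : Prop := ∀ q k : ℕ, 2 ≤ k → 2 ≤ q →
  limsup (fun ℓ : ℕ => rate q ℓ k) atTop ≤ Real.exp (-((((k : ℝ) - 1) * (k - 2)) / (2 * q)))

/-- **Up0** (known: the second half of `Results/MP_96bab1_co/FixedAlphabetBounds.lean`; copy `logb_upper`, `rate_upper` and the second part of the proof of `result` from there, the module must not import the file in `Results`). -/
def S_Up0 : Prop := ∀ q k : ℕ, 1 ≤ k → 2 ≤ q →
  limsup (fun ℓ : ℕ => rate q ℓ k) atTop ≤ 2 / ((k : ℝ) * (k + 1))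

/-- **Up** (from `LimUp`, `Up0`).  Proof.  `L = limsup`.  `k = 2`, `q ≥ 3`: `L ≤ 1/3`, `(4/q + ln 2)/18 ≤ (4/3 + 1)/18 < 1`, and `exp(-y) ≥ 1 - y`; so `exp(-(4/q + ln 2)/18) ≥ 1 - 7/54 ≥ 1/3`.  `k ≥ 3`: `(k-1)(k-2) ≥ (2/9) k²` (`7k² - 27k + 18 = (7k-6)(k-3) ≥ 0`), so `L ≤ exp(-k²/(9q))`; and
`L ≤ 2/(k(k+1)) ≤ 1/k = exp(-ln k)`.  If `k²/q ≥ ln k` then `(k²/q + ln k)/18 ≤ k²/(9q)`, otherwise `(k²/q + ln k)/18 ≤ ln k/9 ≤ ln k`. -/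
def S_Up : Prop := ∀ q k : ℕ, 2 ≤ k → k < q →
  limsup (fun ℓ : ℕ => rate q ℓ k) atTop ≤ Real.exp (-(((k : ℝ) ^ 2 / q + Real.log k) / 18))

/-- the words are functions of labels in `Fin Q` (`lam` maps labels to symbols); for every family of `k + 1` sets of size at most `k` without common element at least the fraction `P` of the label assignments has no symbol common to all sets -/
def Good (q k : ℕ) (P : ℝ) : Prop := ∃ (Q : ℕ) (lam : Fin Q → Fin q), 1 ≤ Q ∧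
  ∀ (n : ℕ) (φ : Fin (k + 1) → Fin k → Option (Fin n)), (∀ x, ∃ j, x ∉ listed (φ j)) →
  ∃ 𝓖 : Finset (Fin n → Fin Q),
    (∀ g ∈ 𝓖, ¬ ∃ a : Fin q, ∀ j, ∃ x ∈ listed (φ j), lam (g x) = a) ∧ P * (Q : ℝ) ^ n ≤ 𝓖.card

/-- **Sep** (the main count).  Proof.  `X = listed (φ 0)`, `s = X.card ≤ k` (`card_listed_le`), `s ≤ n`.  For `x ∈ X` choose `j x` with `x ∉ listed (φ (j x))`.  For `y ∉ X` let `J y = {x ∈ X | y ∈ listed (φ (j x))}`, so `|J y| ≤ s ≤ k ≤ Q/2` and `∑_y |J y| ≤ ∑_{x∈X} |listed (φ (j x))| ≤ k²`.  Let `𝓖` be the set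
of the `g` which are injective on `X`, with `g x ∈ G` for `x ∈ X`, and `g y ≠ g x` for `y ∉ X`, `x ∈ J y`.  (1) If `g ∈ 𝓖` and `a` is common: there are `x ∈ X` with `lam (g x) = a` and `y ∈ listed (φ (j x))` with `lam (g y) = a`; as `g x ∈ G`: `g y = g x`; `y ≠ x` (`x ∉ listed (φ (j x))`); `y ∈ X` contradicts
the injectivity, and `y ∉ X` gives `x ∈ J y`: contradiction.  (2) Count: the number of the injective maps `h : X → G` is `G.card.descFactorial s` (`Fintype.card_embedding_eq`), and for each of them the number of the extensions is `∏_{y ∉ X} (Q - |J y|)` (a `Fintype.piFinset`; the values `h x`, `x ∈ J y`, are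
`|J y|` different labels; it is enough that there are at most `|J y|`).  `Q - |J y| = Q (1 - |J y|/Q) ≥ Q 4^(-|J y|/Q)` since `1 - u ≥ 4^(-u)` for `0 ≤ u ≤ 1/2` (convexity of `4^(-u)`: `4^(-u) ≤ (1-2u) 4^0 + 2u 4^(-1/2)`; e.g. `convexOn_exp` or `Real.rpow` Bernoulli: `4^(-u) = (1/16)^(u/2)…`, or `Real.inner_le_nnorm_mul_nnorm`;
weighted AM-GM `Real.geom_mean_le_arith_mean2_weighted` with the numbers `1`, `1/2` and the weights `1-2u`, `2u` gives `(1/2)^(2u) ≤ 1 - 2u + u = 1 - u`).  So the product is at least `Q^(n-s) 4^(-∑|J y|/Q) ≥ Q^(n-s) 4^(-k²/Q)`. -/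
def S_Sep : Prop := ∀ (Q q k n : ℕ) (lam : Fin Q → Fin q) (G : Finset (Fin Q)), 1 ≤ k →
  (∀ a ∈ G, ∀ b, lam b = lam a → b = a) → 2 * k ≤ Q →
  ∀ φ : Fin (k + 1) → Fin k → Option (Fin n), (∀ x, ∃ j, x ∉ listed (φ j)) →
  ∃ s : ℕ, s ≤ k ∧ s ≤ n ∧ ∃ 𝓖 : Finset (Fin n → Fin Q),
    (∀ g ∈ 𝓖, ¬ ∃ a : Fin q, ∀ j, ∃ x ∈ listed (φ j), lam (g x) = a) ∧
    (G.card.descFactorial s : ℝ) * (Q : ℝ) ^ (n - s) * (4 : ℝ) ^ (-((k : ℝ) ^ 2 / Q)) ≤ 𝓖.card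

/-- **GoodA** (from `Sep`).  Proof.  `Q = q`, `lam = id`, `G = univ`.  `q.descFactorial s = ∏_{i<s} (q-i) = q^s ∏ (1 - i/q) ≥ q^s ∏ 4^(-i/q) ≥ q^s 4^(-s(s-1)/(2q)) ≥ q^s 4^(-k²/(2q))` (`i ≤ k ≤ q/2`; `1 - u ≥ 4^(-u)` for `0 ≤ u ≤ 1/2`, see `Sep`; induction on `s`).  Total
`≥ q^n 4^(-k²/(2q)) 4^(-k²/q) = q^n 8^(-k²/q)`. -/
def S_GoodA : Prop := ∀ q k : ℕ, 1 ≤ k → 2 * k ≤ q → Good q k ((8 : ℝ) ^ (-((k : ℝ) ^ 2 / q)))

/-- **GoodB** (from `Sep`).  Proof.  `Q = 2k`, `lam i = min i (q-1)`, `G = {i | i < q-1}`, `|G| = q-1 ≥ k` (`q - 1 < 2k`).  `(q-1).descFactorial s ≥ k.descFactorial s` and `k.descFactorial s * k^(k-s) ≥ k!` , `k! ≥ (k/e)^k` (from `exp k ≥ k^k/k!`, `Real.pow_div_factorial_le_exp`), so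
`k.descFactorial s ≥ k^s exp(-k)`.  Total `≥ k^s exp(-k) (2k)^(n-s) 4^(-k/2) = (2k)^n 2^(-s) exp(-k) 2^(-k) ≥ (2k)^n exp(-k) 4^(-k) = (2k)^n exp(-(1 + ln 4) k)`. -/
def S_GoodB : Prop := ∀ q k : ℕ, 1 ≤ k → k < q → q < 2 * k →
  Good q k (Real.exp (-((1 + Real.log 4) * k)))

/-- **Ex** (union bound).  Proof.  As `exists_separating` in `Separating.lean`: choose `F : Fin m → Fin n → Fin Q` (all `Q^(n m)` of them), `f x i = lam (F i x)`.  For `φ` with empty intersection the number of the bad columns is at most `(1-P) Q^n` (`Good`), so the number of the bad `F` is at most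
`((1-P) Q^n)^m`; there are at most `(n+1)^(k(k+1))` many `φ`, so some `F` is not bad for any `φ`.  The last part (representing `Y` by `φ`) is copied from `exists_separating`. -/
def S_Ex : Prop := ∀ (q k n m : ℕ) (P : ℝ), Good q k P → P ≤ 1 →
  ((n : ℝ) + 1) ^ (k * (k + 1)) * (1 - P) ^ m < 1 →
  ∃ f : Fin n → Fin m → Fin q, ∀ Y : Finset (Finset (Fin n)), Y.Nonempty → Y.card ≤ k + 1 →
    (∀ X ∈ Y, X.card ≤ k) → (∀ x, ∃ X ∈ Y, x ∉ X) →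
    ∃ i : Fin m, ∀ a : Fin q, ∃ X ∈ Y, ∀ x ∈ X, f x i ≠ a

/-- **RR** (from `Ex`; the rate of random codes).  Proof.  `V = k(k+1)`, `m = ℓ/k` (`≥ 1`), `x = exp(m P/V)`, `n = ⌊x/2⌋`, for `x ≥ 4`: `n + 1 ≤ x`, `(n+1)^V ≤ exp(m P)`, `(1-P)^m < exp(-m P)` (`1 - P < exp(-P)` as `P ≠ 0`), so `Ex` applies; `isSeqIPP_repeat`, `repeat_injective`: `maxSize q ℓ k ≥ n ≥ x/4`.  So
`log maxSize ≥ m P/V - log 4`, `m ≥ ℓ/k - 1`, and `liminf ≥ P/(k V log q)`; copy the proof of `liminf_pos` in `Results/MP_96bab1_co/PositivityThreshold.lean` (with `log ρ` replaced by `P`; the module must not import the file in `Results`). -/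
def S_RR : Prop := ∀ (q k : ℕ) (P : ℝ), 1 ≤ k → 2 ≤ q → 0 < P → P ≤ 1 → Good q k P →
  P / ((k : ℝ) * (k * (k + 1)) * Real.log q) ≤ liminf (fun ℓ : ℕ => rate q ℓ k) atTop

/-- **Lin** (random linear codes, with the exact count of the patterns).  Proof.  `exists_vectors` and `exists_linear_code` in `Linear.lean` with one change: the number of the `g : Fin n → Option (E c)` with `(su c g).card = τ c + 1 =: s` is `C(n,s) * (card (E c))^s`, and `card (E c) ≤ C(c+1,2)` (proof of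
`card_edges_le`); so `A c * p^s ≤ C(n,s) C(c+1,2)^s (p^t)^c P` and the hypothesis gives `2 k A c ≤ P` for each `c`, `∑_c A c ≤ (2k-1)/(2k) P < P`.  The rest is the same (copy it). -/
def S_Lin : Prop := ∀ (p q t ℓ τ k : ℕ), p.Prime → p ≤ q → 1 ≤ k →
  τ * (k * (k + 1)) + 2 * k ≤ 2 * ℓ →
  (∀ c ∈ Finset.Icc 1 (2 * k - 1),
    2 * k * (ℓ.choose (τ * c + 1) * ((c + 1).choose 2) ^ (τ * c + 1) * p ^ (t * c)) ≤
      p ^ (τ * c + 1)) →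
  ∃ C : Finset (Word q ℓ), IsSeqIPP k C ∧ C.card = p ^ t

/-- **LinN** (the hypothesis of `Lin`).  Proof.  `s = τ c + 1`.  `C(ℓ,s) ≤ ℓ^s/s!` (`Nat.choose_le_pow_div`), `s! ≥ (s/e)^s` (`Real.pow_div_factorial_le_exp` at `x = s`), `C(c+1,2) = c(c+1)/2`.  So `C(ℓ,s) C(c+1,2)^s ≤ (e ℓ c (c+1)/(2s))^s ≤ (e ℓ k/τ)^s ≤ B^s`, as `c/s ≤ 1/τ` and `c+1 ≤ 2k`.  The left side is
`≤ 2k B^(τ c + 1) p^(t c) ≤ (2k)^c (B^τ p^t)^c B ≤ (p^τ)^c p`. -/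
def S_LinN : Prop := ∀ (p t ℓ τ k c : ℕ) (B : ℝ), 1 ≤ k → 1 ≤ τ → 1 ≤ c → c + 1 ≤ 2 * k →
  1 ≤ B → B ≤ p → Real.exp 1 * (ℓ * k) ≤ B * τ → 2 * (k : ℝ) * (B ^ τ * (p : ℝ) ^ t) ≤ (p : ℝ) ^ τ →
  2 * k * (ℓ.choose (τ * c + 1) * ((c + 1).choose 2) ^ (τ * c + 1) * p ^ (t * c)) ≤ p ^ (τ * c + 1)

/-- **RL** (from `Lin`, `LinN`; the rate of random linear codes).  Proof.  If `log q ≤ log (3k²(k+1))` the left side is `≤ 0` (`rate_nonneg`).  Otherwise `B = (3/2) k²(k+1)`, `q > 2B`; there is a prime `p` with `p ≤ q ≤ 2p` (`Nat.exists_prime_lt_and_le_two_mul (q/2)`), so `p ≥ B`.  For `ℓ ≥ 12k + 6k(k+1) + k`: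
`τ = 2(ℓ-k)/(k(k+1))` (floor), `τ ≥ 1`, `B τ ≥ 3k(ℓ-k) - (3/2)k²(k+1) ≥ e ℓ k` (`e ≤ 2.72`, so `(3-e) ℓ ≥ 0.28 ℓ ≥ 3k + (3/2)k(k+1)`; check the constant: `0.28 (13k + 6k(k+1)) ≥ 3k + 1.5k(k+1)`).  Let `w = ⌈(τ ln B + ln 2k)/ln p⌉`.  If `w ≤ τ`, `t = τ - w`: `2k B^τ p^t ≤ p^w p^t = p^τ`, `LinN` and `Lin` give
`maxSize ≥ p^t`, `log maxSize ≥ (τ-w) ln p ≥ τ (ln p - ln B) - ln 2k - ln p`; if `w > τ` the right side is `≤ 0 ≤ log maxSize` (`rate_nonneg`).  With `ln p ≥ ln q - ln 2`, `2B = 3k²(k+1)`, `τ ≥ 2(ℓ-k)/(k(k+1)) - 1`: `ℓ rate ≥ (2ℓ/(k(k+1))) (1 - ln(3k²(k+1))/ln q) - const`.  (As `rate_lower` in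
`Results/MP_96bab1_co/FixedAlphabetBounds.lean`; the module must not import this file.) -/
def S_RL : Prop := ∀ q k : ℕ, 2 ≤ k → 2 ≤ q →
  2 / ((k : ℝ) * (k + 1)) * (1 - Real.log (3 * (k : ℝ) ^ 2 * (k + 1)) / Real.log q) ≤
    liminf (fun ℓ : ℕ => rate q ℓ k) atTop

/-- **Low** (from `GoodA`, `GoodB`, `RR`, `RL`).  Proof.  `L = liminf`.  CASE 1: `q < 2k`.  `GoodB`, `RR`: `L ≥ exp(-(1+ln 4)k)/(k²(k+1) ln q)`, `ln q ≤ ln (2k) ≤ k` (`exp k ≥ 1 + k + k²/2 ≥ 2k`), `k+1 ≤ k²`, so `L ≥ exp(-(1+ln 4)k - 5 ln k)`, and `(1 + ln 4) k ≤ 2.4 k ≤ 4.8 k²/q` as `q ≤ 2k`.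
CASE 2: `2k ≤ q`, `ln q ≥ 2 ln(3k²(k+1))`.  `RL`: `L ≥ 1/(k(k+1)) ≥ 1/k³ = exp(-3 ln k)`.  CASE 3: `2k ≤ q`, `ln q ≤ 2 ln(3k²(k+1)) ≤ k³`: `GoodA`, `RR`: `L ≥ 8^(-k²/q)/(k²(k+1) k³) ≥ exp(-(ln 8) k²/q - 7 ln k)`, `ln 8 ≤ 2.1`.  (`2 ln(3k²(k+1)) ≤ k³`: with `ln x ≤ x/e ≤ 0.37 x` and `ln 3 ≤ 1.1`:
`≤ 2.2 + 4·0.37 k + 2·0.37 (k+1) ≤ 2.94 + 2.22 k ≤ 4k ≤ k³`.) -/
def S_Low : Prop := ∀ q k : ℕ, 2 ≤ k → k < q →
  Real.exp (-(7 * ((k : ℝ) ^ 2 / q + Real.log k))) ≤ liminf (fun ℓ : ℕ => rate q ℓ k) atTop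

/-- **One** (`k = 1`).  Proof.  The code of all words is sequential `1`-IPP: the tracer adds, when the list `w` of the received symbols has length `ℓ`, the word `w` (and nothing before): for `X ⊆ C`, `|X| ≤ 1`, `Reach A X w U` implies that `w` is the list of the first `w.length` symbols of the only element `x`
of `X`, `U = ∅` if `w.length < ℓ` and `U = {x}` if `w.length = ℓ` (induction on `Reach`; if `ℓ = 0` …, here `ℓ ≥ 1`).  So `maxSize = q^ℓ` (`le_maxSize`, `maxSize_le_pow`). -/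
def S_One : Prop := ∀ q ℓ : ℕ, 2 ≤ q → 1 ≤ ℓ → rate q ℓ 1 = 1

end Pool.Agent.Lib.MP_96bab1_co.U
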