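import Pool.Agent.Lib.MP_96bab1_co.U.Spec

/-!
# MP_96bab1_co, module Up: the upper bound, uniform in `k` and `q`
-/

set_option autoImplicit false

namespace Pool.Agent.Lib.MP_96bab1_co.U

open Filter Topology Pool.Agent.Lib.MP_96bab1_co

namespace UpAux

theorem logb_upper (k ℓ t : ℕ) (hk : 1 ≤ k) (hℓ : 2 * (ℓ + 1) ≤ 2 * k + t * (k * (k + 1)))
    (q : ℕ) (hq : 2 ≤ q) :
    Real.logb q (maxSize q ℓ k) ≤ t + Real.log ((k : ℝ) + k * (k + 1)) / Real.log q := by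
  have h1 : maxSize q ℓ k ≤ (k + k * (k + 1)) * q ^ t := by
    apply maxSize_le
    intro C hC
    have h2 := card_le_of_isSeqIPP (by omega) hk hℓ C hC
    have h3 : 1 ≤ q ^ t := Nat.one_le_pow _ _ (by omega)
    nlinarith [Nat.mul_le_mul_left (k * (k + 1)) h3]
  have hq1 : (1 : ℝ) < q := by exact_mod_cast (by omega : 1 < q)
  have hlq : 0 < Real.log q := Real.log_pos hq1
  have hkpos : (0 : ℝ) < k := by exact_mod_cast hk
  have hc : (0 : ℝ) < (k : ℝ) + k * (k + 1) := by positivity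
  rw [Real.logb]
  rcases Nat.eq_zero_or_pos (maxSize q ℓ k) with h0 | h0
  · rw [h0]
    simp only [Nat.cast_zero, Real.log_zero, zero_div]
    have : 1 ≤ (k : ℝ) + k * (k + 1) := by
      have : (1 : ℝ) ≤ k := by exact_mod_cast hk
      nlinarith
    have := Real.log_nonneg this
    positivity
  · have h4 : (maxSize q ℓ k : ℝ) ≤ ((k : ℝ) + k * (k + 1)) * (q : ℝ) ^ t := by
      exact_mod_cast h1
    have h5 : Real.log (maxSize q ℓ k) ≤ Real.log ((k : ℝ) + k * (k + 1)) + t * Real.log q := by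
      calc Real.log (maxSize q ℓ k) ≤ Real.log (((k : ℝ) + k * (k + 1)) * (q : ℝ) ^ t) :=
            Real.log_le_log (by exact_mod_cast h0) h4
        _ = _ := by
            rw [Real.log_mul hc.ne' (by positivity), Real.log_pow]
    rw [div_le_iff₀ hlq, add_mul, div_mul_cancel₀ _ hlq.ne']
    linarith

/-- The upper bound on the rate for every length. -/
theorem rate_upper (k ℓ q : ℕ) (hk : 1 ≤ k) (hℓ : 1 ≤ ℓ) (hq : 2 ≤ q) :
    rate q ℓ k ≤ 2 / (k * (k + 1)) +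
      (2 + Real.log ((k : ℝ) + k * (k + 1)) / Real.log q) / ℓ := by
  have hkpos : (0 : ℝ) < k := by exact_mod_cast hk
  have hkk : (0 : ℝ) < k * (k + 1) := by positivity
  have hkk2 : (2 : ℝ) ≤ k * (k + 1) := by
    have : (1 : ℝ) ≤ k := by exact_mod_cast hk
    nlinarith
  have hℓ' : (0 : ℝ) < ℓ := by exact_mod_cast hℓ
  set t := ⌈2 * ((ℓ : ℝ) + 1) / (k * (k + 1))⌉₊ with ht
  have h1 := Nat.le_ceil (2 * ((ℓ : ℝ) + 1) / (k * (k + 1)))
  rw [← ht, div_le_iff₀ hkk] at h1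
  have h2 : 2 * (ℓ + 1) ≤ 2 * k + t * (k * (k + 1)) := by
    have h3 : 2 * (ℓ + 1) ≤ t * (k * (k + 1)) := by exact_mod_cast h1
    omega
  have h3 := logb_upper k ℓ t hk h2 q hq
  have h4 : (t : ℝ) < 2 * ((ℓ : ℝ) + 1) / (k * (k + 1)) + 1 := by
    rw [ht]
    exact Nat.ceil_lt_add_one (by positivity)
  have h5 : 2 * ((ℓ : ℝ) + 1) / (k * (k + 1)) ≤ 2 / (k * (k + 1)) * ℓ + 1 := by
    have h6 : 2 * ((ℓ : ℝ) + 1) / (k * (k + 1)) = 2 / (k * (k + 1)) * ℓ + 2 / (k * (k + 1)) := by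
      field_simp
    have h7 : 2 / ((k : ℝ) * (k + 1)) ≤ 1 := by
      rw [div_le_one hkk]; exact hkk2
    linarith
  unfold rate
  rw [div_le_iff₀ hℓ', add_mul, div_mul_cancel₀ _ hℓ'.ne']
  linarith

end UpAux

/-- **Up0** -/
theorem pUp0 : S_Up0 := by
  intro q k hk hq
  have hlim : Tendsto (fun ℓ : ℕ => 2 / ((k : ℝ) * (k + 1)) +
      (2 + Real.log ((k : ℝ) + k * (k + 1)) / Real.log q) / (ℓ : ℝ)) atTop
      (𝓝 (2 / ((k : ℝ) * (k + 1)) + 0)) :=
    tendsto_const_nhds.add (tendsto_natCast_atTop_atTop.const_div_atTop _)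
  rw [add_zero] at hlim
  rw [← hlim.limsup_eq]
  apply limsup_le_limsup
  · filter_upwards [eventually_ge_atTop 1] with ℓ hℓ
    exact UpAux.rate_upper k ℓ q hk hℓ hq
  · exact (bddBelow_rate q k).isCoboundedUnder_le
  · exact hlim.isBoundedUnder_le

/-- **Up** -/
theorem pUp : S_LimUp → S_Up0 → S_Up := by
  intro h1 h0 q k hk hkq
  have hq2 : 2 ≤ q := by omega
  have u1 := h1 q k hk hq2
  have u0 := h0 q k (by omega) hq2
  have hkR : (2 : ℝ) ≤ (k : ℝ) := by exact_mod_cast hk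
  have hqR : (3 : ℝ) ≤ (q : ℝ) := by exact_mod_cast (by omega : 3 ≤ q)
  have hq0 : (0 : ℝ) < (q : ℝ) := by linarith
  have hk0 : (0 : ℝ) < (k : ℝ) := by linarith
  have hlk : 0 ≤ Real.log (k : ℝ) := Real.log_nonneg (by linarith)
  rcases Nat.lt_or_ge 2 k with h3 | h3
  · have hk3 : (3 : ℝ) ≤ (k : ℝ) := by exact_mod_cast h3
    rcases le_total (Real.log (k : ℝ)) ((k : ℝ) ^ 2 / q) with hl | hl
    · refine u1.trans (Real.exp_le_exp.2 (neg_le_neg ?_))
      have e1 : ((k : ℝ) ^ 2 / q + Real.log k) / 18 ≤ ((k : ℝ) ^ 2 / q + (k : ℝ) ^ 2 / q) / 18 := by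
        gcongr
      refine e1.trans ?_
      have e2 : ((k : ℝ) ^ 2 / q + (k : ℝ) ^ 2 / q) / 18 = (2 / 9 * (k : ℝ) ^ 2) / (2 * q) := by
        field_simp
        ring
      rw [e2]
      refine div_le_div_of_nonneg_right ?_ (by positivity)
      nlinarith
    · refine u0.trans ?_
      have e1 : 2 / ((k : ℝ) * (k + 1)) ≤ Real.exp (-Real.log (k : ℝ)) := by
        rw [Real.exp_neg, Real.exp_log hk0, inv_eq_one_div, div_le_div_iff₀ (by positivity) hk0]
        nlinarith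
      refine e1.trans (Real.exp_le_exp.2 (neg_le_neg ?_))
      linarith
  · have hk2 : k = 2 := by omega
    subst hk2
    refine u0.trans ?_
    have hl2 : Real.log 2 ≤ 1 := by
      have := Real.log_two_lt_d9
      linarith
    have e1 : (((2 : ℕ) : ℝ) ^ 2 / q + Real.log ((2 : ℕ) : ℝ)) / 18 ≤ 7 / 54 := by
      have : ((2 : ℕ) : ℝ) ^ 2 / q ≤ 4 / 3 := by
        push_cast
        rw [div_le_div_iff₀ hq0 (by norm_num)]
        linarith
      push_cast at this ⊢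
      linarith
    have e2 := Real.add_one_le_exp (-((((2 : ℕ) : ℝ) ^ 2 / q + Real.log ((2 : ℕ) : ℝ)) / 18))
    have e3 : 2 / (((2 : ℕ) : ℝ) * (((2 : ℕ) : ℝ) + 1)) = 1 / 3 := by norm_num
    rw [e3]
    linarith

end Pool.Agent.Lib.MP_96bab1_co.U
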